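import Pool.Agent.Work.MP_d3517d_nt.Sys.Galois
import Pool.Agent.Work.MP_d3517d_nt.ES.Transfer

/-!
# The residual ideal of a system of eigenvalues is maximal with a finite residue field
-/

open Polynomial

noncomputable section

namespace Gouvea.Sys

variable {p : ℕ} [Fact p.Prime]

section Res

variable {R : Type*} [CommRing R]

/-- The residual ideal of an integral system `χ`. -/
def resIdeal (χ : R →+* PadicAlgCl p) (h : ∀ r, ‖χ r‖ ≤ 1) : Ideal R where
  carrier := {r | ‖χ r‖ < 1}
  add_mem' := by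
    intro a b ha hb
    simp only [Set.mem_ofPred_eq, map_add] at *
    exact norm_add_lt ha hb
  zero_mem' := by simp
  smul_mem' := by
    intro c x hx
    simp only [Set.mem_ofPred_eq, smul_eq_mul, map_mul, norm_mul] at *
    calc ‖χ c‖ * ‖χ x‖ ≤ 1 * ‖χ x‖ := by gcongr; exact h c
      _ < 1 := by rwa [one_mul]

variable (χ : R →+* PadicAlgCl p) (h : ∀ r, ‖χ r‖ ≤ 1)

@[simp] lemma mem_resIdeal {r : R} : r ∈ resIdeal χ h ↔ ‖χ r‖ < 1 := Iff.rfl

lemma p_mem_resIdeal : (p : R) ∈ resIdeal χ h := by
  rw [mem_resIdeal, map_natCast]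
  exact norm_p_lt

instance resIdeal_isPrime : (resIdeal χ h).IsPrime where
  ne_top' := by
    intro e
    have h1 : (1 : R) ∈ resIdeal χ h := e ▸ Submodule.mem_top
    rw [mem_resIdeal, map_one, norm_one] at h1
    exact lt_irrefl _ h1
  mem_or_mem' := by
    intro a b hab
    by_contra hcon
    push Not at hcon
    simp only [mem_resIdeal, not_lt] at hcon
    have ha : ‖χ a‖ = 1 := le_antisymm (h a) hcon.1
    have hb : ‖χ b‖ = 1 := le_antisymm (h b) hcon.2
    rw [mem_resIdeal, map_mul, norm_mul, ha, hb, one_mul] at hab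
    exact lt_irrefl _ hab

theorem finite_quotient_resIdeal (hfin : Module.Finite ℤ χ.range) :
    Finite (R ⧸ resIdeal χ h) := by
  -- `R ⧸ resIdeal` is a finitely generated torsion group
  have hsurj : Function.Surjective χ.rangeRestrict := χ.rangeRestrict_surjective
  let g : χ.range →+* R ⧸ resIdeal χ h :=
    χ.rangeRestrict.liftOfSurjective hsurj ⟨Ideal.Quotient.mk (resIdeal χ h), by
      intro r hr
      rw [RingHom.mem_ker] at hr ⊢
      rw [Ideal.Quotient.eq_zero_iff_mem, mem_resIdeal]
      have : χ r = 0 := congrArg Subtype.val hr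
      rw [this, norm_zero]
      exact one_pos⟩
  have hg : Function.Surjective g := by
    intro x
    obtain ⟨r, rfl⟩ := Ideal.Quotient.mk_surjective x
    refine ⟨χ.rangeRestrict r, ?_⟩
    exact RingHom.liftOfRightInverse_comp_apply _ _ _ _ _
  have h1 : Module.Finite ℤ (R ⧸ resIdeal χ h) :=
    Module.Finite.of_surjective g.toAddMonoidHom.toIntLinearMap hg
  refine Module.finite_of_fg_torsion _ ?_
  intro x
  refine ⟨⟨(p : ℤ), mem_nonZeroDivisors_of_ne_zero ?_⟩, ?_⟩
  · exact_mod_cast (Fact.out : p.Prime).ne_zero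
  · obtain ⟨r, rfl⟩ := Ideal.Quotient.mk_surjective x
    have h2 : (p : R) * r ∈ resIdeal χ h := Ideal.mul_mem_right _ _ (p_mem_resIdeal χ h)
    have h3 := Ideal.Quotient.eq_zero_iff_mem.mpr h2
    rw [map_mul, map_natCast] at h3
    rw [Submonoid.mk_smul, zsmul_eq_mul, Int.cast_natCast]
    exact h3

theorem isMaximal_resIdeal (hfin : Module.Finite ℤ χ.range) : (resIdeal χ h).IsMaximal := by
  have := finite_quotient_resIdeal χ h hfin
  exact Ideal.Quotient.maximal_of_isField _ (Finite.isField_of_domain (R ⧸ resIdeal χ h))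

end Res

section Int

variable {R : Type*} [CommRing R]

lemma finite_range_of_ker_le {S T : Type*} [Ring S] [Ring T] [IsNoetherian ℤ S]
    (f : R →+* S) (g : R →+* T) (h : ∀ r, f r = 0 → g r = 0) : Module.Finite ℤ g.range := by
  have h1 : Module.Finite ℤ (LinearMap.range f.toAddMonoidHom.toIntLinearMap) := inferInstance
  -- the additive map from the range of `f` onto the range of `g`
  have h2 : LinearMap.ker f.toAddMonoidHom.toIntLinearMap ≤
      LinearMap.ker g.toAddMonoidHom.toIntLinearMap := fun r hr => h r hr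
  let e := f.toAddMonoidHom.toIntLinearMap.quotKerEquivRange
  have h3 : Module.Finite ℤ (R ⧸ LinearMap.ker f.toAddMonoidHom.toIntLinearMap) :=
    Module.Finite.equiv e.symm
  let q : (R ⧸ LinearMap.ker f.toAddMonoidHom.toIntLinearMap) →ₗ[ℤ] g.range :=
    Submodule.liftQ _ g.rangeRestrict.toAddMonoidHom.toIntLinearMap (by
      intro r hr
      rw [LinearMap.mem_ker]
      exact Subtype.ext (h r hr))
  refine Module.Finite.of_surjective q ?_
  intro y
  obtain ⟨r, rfl⟩ := g.rangeRestrict_surjective y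
  exact ⟨Submodule.Quotient.mk r, rfl⟩

variable {ι : Type*} [Fintype ι] [DecidableEq ι]

/-- A system of eigenvalues of commuting integer matrices factors through the matrices. -/
theorem eq_zero_of_mem_Sys {K : Type*} [Field K] [IsAlgClosed K] (A : R →+* Matrix ι ι ℤ)
    {χ : R →+* K} (hχ : χ ∈ Sys (matRep (intRep K A))) {r : R} (hr : A r = 0) : χ r = 0 := by
  have h1 := roots_charpoly (matRep (intRep K A)) r
  have h2 : matRep (intRep K A) r = 0 := by
    have : intRep K A r = 0 := by
      simp [intRep, hr]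
    simp [matRep, this]
  rw [h2] at h1
  have h3 : χ r ∈ (Sys (matRep (intRep K A))).map (fun χ => χ r) :=
    Multiset.mem_map_of_mem _ hχ
  rw [← h1, Polynomial.mem_roots', LinearMap.charpoly_zero] at h3
  have h4 := h3.2
  rw [IsRoot.def, eval_pow, eval_X] at h4
  exact eq_zero_of_pow_eq_zero h4

theorem finite_range_of_mem_Sys {K : Type*} [Field K] [IsAlgClosed K] (A : R →+* Matrix ι ι ℤ)
    {χ : R →+* K} (hχ : χ ∈ Sys (matRep (intRep K A))) : Module.Finite ℤ χ.range :=
  finite_range_of_ker_le A χ fun _ hr => eq_zero_of_mem_Sys A hχ hr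

theorem norm_le_of_mem_Sys (A : R →+* Matrix ι ι ℤ) {χ : R →+* PadicAlgCl p}
    (hχ : χ ∈ Sys (matRep (intRep (PadicAlgCl p) A))) (r : R) : ‖χ r‖ ≤ 1 := by
  obtain ⟨g, hg, hg0⟩ := isIntegral_of_mem_Sys A hχ r
  exact norm_root_le hg hg0

/-- The systems of integer matrices are permuted by every automorphism. -/
theorem Sys_galois (A : R →+* Matrix ι ι ℤ) (σ : PadicAlgCl p ≃ₐ[ℚ_[p]] PadicAlgCl p) :
    (Sys (matRep (intRep (PadicAlgCl p) A))).map
      (fun χ => (σ : PadicAlgCl p →+* PadicAlgCl p).comp χ) =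
      Sys (matRep (intRep (PadicAlgCl p) A)) := by
  rw [← Sys_map, matMap_intRep]

end Int

end Gouvea.Sys
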