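import Pool.Agent.Work.MP_d3517d_nt.Sys.Source
import Pool.Agent.Work.MP_d3517d_nt.Sys.Finite
import Pool.Agent.Work.MP_d3517d_nt.Stmt

/-!
# Counting the systems in one residual class, over `\bar ℚ_p` and over `ℂ`
-/

open Polynomial Module Filter Topology

noncomputable section

namespace Gouvea.Sys

variable {p : ℕ} [Fact p.Prime]

lemma toK_intP {R : Type*} [CommRing R] {ι : Type} [Fintype ι] [DecidableEq ι]
    (A : R →+* Matrix ι ι ℤ) : toK (intP p A) = intRep (PadicAlgCl p) A := by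
  apply RingHom.ext
  intro r
  ext a b
  change zK p ((A r a b : ℤ) : ℤ_[p]) = ((A r a b : ℤ) : PadicAlgCl p)
  rw [map_intCast]

open Classical in
lemma SJ_eq {ι : Type} [Fintype ι] [DecidableEq ι] (A : HR →+* Matrix ι ι ℤ)
    (J : Ideal (HR0 p)) : SJ A J =
      (Sys (matRep (intRep (PadicAlgCl p) A))).filter fun χ => ∀ t ∈ J, ‖χ (incl p t)‖ < 1 := by
  rw [SJ, toK_intP]

/-- An integral system is small on an ideal if it is small on generators. -/
lemma small_iff {R S : Type*} [CommRing R] [CommRing S] (jt : R →+* S) (m : Ideal R)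
    (U : Set S) (χ : S →+* PadicAlgCl p) (h : ∀ r, ‖χ r‖ ≤ 1) :
    (∀ t ∈ Ideal.map jt m ⊔ Ideal.span U, ‖χ t‖ < 1) ↔
      (∀ t ∈ m, ‖χ (jt t)‖ < 1) ∧ ∀ u ∈ U, ‖χ u‖ < 1 := by
  constructor
  · intro H
    refine ⟨fun t ht => H _ ?_, fun u hu => H _ ?_⟩
    · exact Ideal.mem_sup_left (Ideal.mem_map_of_mem jt ht)
    · exact Ideal.mem_sup_right (Ideal.subset_span hu)
  · rintro ⟨h1, h2⟩
    have h3 : Ideal.map jt m ⊔ Ideal.span U ≤ resIdeal χ h := by
      apply sup_le
      · rw [Ideal.map_le_iff_le_comap]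
        intro t ht
        exact h1 t ht
      · rw [Ideal.span_le]
        intro u hu
        exact h2 u hu
    intro t ht
    exact h3 ht

section Class

variable {Rt : Type*} [CommRing Rt] (jt : Rt →+* HR0 p) (χ0 : Rt →+* PadicAlgCl p)
  (h0 : ∀ r, ‖χ0 r‖ ≤ 1)

/-- The ideal of the class of `χ0`, with additional conditions `U`. -/
def JU (U : Set (HR0 p)) : Ideal (HR0 p) := Ideal.map jt (resIdeal χ0 h0) ⊔ Ideal.span U

open Classical in
/-- The systems in the residual class of `χ0`, with the conditions `U`. -/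
def CU {ι : Type} [Fintype ι] [DecidableEq ι] (A : HR →+* Matrix ι ι ℤ) (U : Set (HR0 p)) :
    Multiset (HR →+* PadicAlgCl p) :=
  (Sys (matRep (intRep (PadicAlgCl p) A))).filter fun χ =>
    (∀ r, ‖χ (incl p (jt r)) - χ0 r‖ < 1) ∧ ∀ u ∈ U, ‖χ (incl p u)‖ < 1

open Classical in
/-- **One residual class.** -/
theorem class_count (hfin : Module.Finite ℤ χ0.range) :
    ∃ f : ℕ, 0 < f ∧ ∀ {ι : Type} [Fintype ι] [DecidableEq ι] (A : HR →+* Matrix ι ι ℤ)
      (U : Set (HR0 p)) (P : (HR →+* PadicAlgCl p) → Prop)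
      (_ : ∀ (σ : PadicAlgCl p ≃ₐ[ℚ_[p]] PadicAlgCl p) χ,
        P ((σ : PadicAlgCl p →+* PadicAlgCl p).comp χ) ↔ P χ),
      ((SJ A (JU jt χ0 h0 U)).filter P).card = f * ((CU jt χ0 A U).filter P).card := by
  have hmax := isMaximal_resIdeal χ0 h0 hfin
  have hfinq := finite_quotient_resIdeal χ0 h0 hfin
  obtain ⟨f, hf, H⟩ := exists_card (p := p) (resIdeal χ0 h0) (p_mem_resIdeal χ0 h0)
  refine ⟨f, hf, ?_⟩
  intro ι _ _ A U P hP
  set T := Sys (matRep (intRep (PadicAlgCl p) A)) with hT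
  set Q : (HR →+* PadicAlgCl p) → Prop := fun χ => (∀ u ∈ U, ‖χ (incl p u)‖ < 1) ∧ P χ with hQ
  have hQσ : ∀ (σ : PadicAlgCl p ≃ₐ[ℚ_[p]] PadicAlgCl p) χ,
      Q ((σ : PadicAlgCl p →+* PadicAlgCl p).comp χ) ↔ Q χ := by
    intro σ χ
    rw [hQ]
    simp only [hP σ χ]
    have e1 : ∀ x, ‖(σ : PadicAlgCl p →+* PadicAlgCl p) x‖ = ‖x‖ := fun x => norm_aut σ x
    simp only [RingHom.comp_apply, e1]
  have key := H ((incl p).comp jt) (T.filter Q) ?_ ?_ χ0 h0 (fun r => Iff.rfl)
    (fun _ => ()) (fun _ _ => rfl)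
  · have h1 := congrArg Multiset.card key
    rw [Multiset.card_nsmul, Multiset.card_map, Multiset.card_map] at h1
    have h2 : ((SJ A (JU jt χ0 h0 U)).filter P) = (T.filter Q).filter fun χ =>
        ∀ t ∈ resIdeal χ0 h0, ‖χ (((incl p).comp jt) t)‖ < 1 := by
      rw [SJ_eq, Multiset.filter_filter, Multiset.filter_filter]
      apply Multiset.filter_congr
      intro χ hχ
      have h3 := small_iff jt (resIdeal χ0 h0) U (χ.comp (incl p))
        (fun r => norm_le_of_mem_Sys A hχ _)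
      simp only [RingHom.comp_apply] at h3 ⊢
      rw [JU, h3, hQ]
      tauto
    have h4 : ((CU jt χ0 A U).filter P) = (T.filter Q).filter fun χ =>
        ∀ r, ‖χ (((incl p).comp jt) r) - χ0 r‖ < 1 := by
      rw [CU, Multiset.filter_filter, Multiset.filter_filter]
      apply Multiset.filter_congr
      intro χ hχ
      simp only [RingHom.comp_apply]
      rw [hQ]
      tauto
    rw [h2, h4, h1]
  · intro σ
    have h5 : T.filter (Q ∘ fun χ => (σ : PadicAlgCl p →+* PadicAlgCl p).comp χ) = T.filter Q :=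
      Multiset.filter_congr fun χ _ => hQσ σ χ
    have h8 := congrArg (Multiset.filter Q) (Sys_galois A σ)
    rw [Multiset.filter_map, ← hT, h5] at h8
    exact h8
  · intro χ hχ r
    exact norm_le_of_mem_Sys A (Multiset.mem_filter.mp hχ).1 _

end Class

/-- **Reading the systems over `ℂ`.** -/
theorem map_emb {ι : Type} [Fintype ι] [DecidableEq ι] (A : HR →+* Matrix ι ι ℤ)
    (j : algebraicClosure ℚ ℂ →+* PadicAlgCl p) :
    (Sys (matRep (intRep ℂ A))).map (fun χ => fun r => emb p j (χ r)) =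
      (Sys (matRep (intRep (PadicAlgCl p) A))).map (fun χ => fun r => χ r) := by
  have hac : IsAlgClosed (algebraicClosure ℚ ℂ) := by
    have h := algebraicClosure.isAlgClosure ℚ ℂ
    exact h.isAlgClosed
  have h1 : intRep ℂ A = matMap (algebraMap (algebraicClosure ℚ ℂ) ℂ)
      (intRep (algebraicClosure ℚ ℂ) A) := (matMap_intRep _ A).symm
  have h2 : intRep (PadicAlgCl p) A = matMap j (intRep (algebraicClosure ℚ ℂ) A) :=
    (matMap_intRep _ A).symm
  rw [h1, h2, Sys_map, Sys_map, Multiset.map_map, Multiset.map_map]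
  apply Multiset.map_congr rfl
  intro χ _
  funext r
  simp only [Function.comp_apply, RingHom.comp_apply]
  have h3 : (algebraMap (algebraicClosure ℚ ℂ) ℂ) (χ r) ∈ algebraicClosure ℚ ℂ := (χ r).2
  rw [emb, dif_pos h3]
  congr 1

open Classical in
/-- **Counting over `ℂ`.** -/
theorem card_emb {ι : Type} [Fintype ι] [DecidableEq ι] (A : HR →+* Matrix ι ι ℤ)
    (j : algebraicClosure ℚ ℂ →+* PadicAlgCl p) (P : (HR → PadicAlgCl p) → Prop) :
    ((Sys (matRep (intRep ℂ A))).filter fun χ => P fun r => emb p j (χ r)).card =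
      ((Sys (matRep (intRep (PadicAlgCl p) A))).filter fun χ => P fun r => χ r).card := by
  have h := congrArg (fun S => (Multiset.filter P S).card) (map_emb A j)
  simp only [Multiset.filter_map, Multiset.card_map] at h
  exact h

end Gouvea.Sys
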