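import Pool.Agent.Work.MP_d3517d_nt.Sys.Class
import Pool.Agent.Work.MP_d3517d_nt.Sys.IdemFin

/-!
# The densities of a source

`Src p`: a source of counting functions (a `Dat`, a Hecke action, integral matrices).
`betS S A c`: the density of the systems `χ` with `‖χ (T_q) - c q‖ < 1` for all `q ∈ A`.
-/

open Polynomial Module Filter Topology

noncomputable section

namespace Gouvea.Sys

/-- A source of counting functions at the prime `p`. -/
structure Src (p : ℕ) [Fact p.Prime] where
  h : ℕ
  E : Type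
  V : Type
  [fE : Fintype E]
  [dE : DecidableEq E]
  [fV : Fintype V]
  [dV : DecidableEq V]
  hh : 1 ≤ h
  D : Dat p h E (V × Bool)
  H : HRep D (HR0 p)
  A : ∀ n : ℕ, Even n → (HR →+* Matrix (V × Fin (n + 1)) (V × Fin (n + 1)) ℤ)
  hT : ∀ n (hn : Even n), ∀ x y, (D.π n * D.W n * D.ι n) x y =
    if x.1.2 = y.1.2 then 0 else ((A n hn (Xp p) (x.1.1, x.2) (y.1.1, y.2) : ℤ) : ℤ_[p])
  hTV : ∀ n hn (l : {l : ℕ // l.Prime ∧ l ≠ p}) x y, H.TV n hn (MvPolynomial.X l) x y =
    if x.1.2 = y.1.2 then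
      ((A n hn (MvPolynomial.X ⟨l.1, l.2.1⟩) (x.1.1, x.2) (y.1.1, y.2) : ℤ) : ℤ_[p]) else 0

attribute [instance] Src.fE Src.dE Src.fV Src.dV

variable {p : ℕ} [Fact p.Prime]

section Cond

/-- The inclusion of the Hecke ring of the primes in `A` (not containing `p`). -/
def jA (p : ℕ) (A : Set Nat.Primes) : MvPolynomial A ℤ →+* HR0 p :=
  MvPolynomial.eval₂Hom (Int.castRingHom _) fun q =>
    if h : ((q : Nat.Primes) : ℕ) ≠ p then MvPolynomial.X ⟨q.1.1, q.1.2, h⟩ else 0

lemma incl_jA {A : Set Nat.Primes} (hA : ∀ q ∈ A, (q : ℕ) ≠ p) (q : A) :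
    incl p (jA p A (MvPolynomial.X q)) = MvPolynomial.X (q : Nat.Primes) := by
  have h : ((q : Nat.Primes) : ℕ) ≠ p := hA q q.2
  rw [jA, MvPolynomial.eval₂Hom_X', dif_pos h, incl_X]
  rfl

variable (A : Set Nat.Primes) (c : Nat.Primes → PadicAlgCl p)

/-- The evaluation at `c`. -/
def evc : MvPolynomial A ℤ →+* PadicAlgCl p :=
  MvPolynomial.eval₂Hom (Int.castRingHom _) fun q => c q

lemma evc_X (q : A) : evc A c (MvPolynomial.X q) = c q := by
  rw [evc, MvPolynomial.eval₂Hom_X']

variable {A c}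

lemma norm_evc_le (hc : ∀ q ∈ A, ‖c q‖ ≤ 1) (r : MvPolynomial A ℤ) : ‖evc A c r‖ ≤ 1 := by
  induction r using MvPolynomial.induction_on with
  | C a =>
    have e : evc A c (MvPolynomial.C a) = (a : PadicAlgCl p) := by
      rw [evc, MvPolynomial.eval₂Hom_C]
      rfl
    rw [e]
    exact norm_int_le a
  | add a b ha hb =>
    rw [map_add]
    exact norm_add_le_one ha hb
  | mul_X a q ha =>
    rw [map_mul, norm_mul, evc_X]
    exact mul_le_one₀ ha (norm_nonneg _) (hc q q.2)

/-- The condition for a system in terms of the generators. -/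
lemma class_iff (hc : ∀ q ∈ A, ‖c q‖ ≤ 1) {T : Type*} [CommRing T] (f : MvPolynomial A ℤ →+* T)
    (χ : T →+* PadicAlgCl p) (hχ : ∀ r, ‖χ r‖ ≤ 1) :
    (∀ r, ‖χ (f r) - evc A c r‖ < 1) ↔ ∀ q : A, ‖χ (f (MvPolynomial.X q)) - c q‖ < 1 := by
  constructor
  · intro h q
    have := h (MvPolynomial.X q)
    rwa [evc_X] at this
  · intro h r
    induction r using MvPolynomial.induction_on with
    | C a =>
      have e1 : (MvPolynomial.C a : MvPolynomial A ℤ) = (a : MvPolynomial A ℤ) := by simp
      rw [e1, map_intCast, map_intCast, map_intCast, sub_self, norm_zero]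
      exact one_pos
    | add a b ha hb =>
      have e : χ (f (a + b)) - evc A c (a + b) =
          (χ (f a) - evc A c a) + (χ (f b) - evc A c b) := by
        rw [map_add, map_add, map_add]
        ring
      rw [e]
      exact norm_add_lt ha hb
    | mul_X a q ha =>
      have e : χ (f (a * MvPolynomial.X q)) - evc A c (a * MvPolynomial.X q) =
          χ (f a) * (χ (f (MvPolynomial.X q)) - c q) + (χ (f a) - evc A c a) * c q := by
        rw [map_mul, map_mul, map_mul, evc_X]
        ring
      rw [e]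
      apply norm_add_lt
      · rw [norm_mul]
        calc ‖χ (f a)‖ * ‖χ (f (MvPolynomial.X q)) - c q‖
            ≤ 1 * ‖χ (f (MvPolynomial.X q)) - c q‖ := by gcongr; exact hχ _
          _ < 1 := by rw [one_mul]; exact h q
      · rw [norm_mul]
        calc ‖χ (f a) - evc A c a‖ * ‖c q‖ ≤ ‖χ (f a) - evc A c a‖ * 1 := by
              gcongr
              exact hc q q.2
          _ < 1 := by rw [mul_one]; exact ha

variable (A c)

/-- The residual ideal of `c`. -/
def mc (hc : ∀ q ∈ A, ‖c q‖ ≤ 1) : Ideal (MvPolynomial A ℤ) := resIdeal (evc A c) (norm_evc_le hc)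

/-- `c` has a finite residue field. -/
def Good : Prop := ∃ hc : ∀ q ∈ A, ‖c q‖ ≤ 1, (mc A c hc).IsMaximal ∧
  Finite (MvPolynomial A ℤ ⧸ mc A c hc)

lemma exists_fdeg (hG : Good A c) : ∃ f : ℕ, 0 < f ∧
    ∀ {R' : Type} [CommRing R'] (j : MvPolynomial A ℤ →+* R')
      (S : Multiset (R' →+* PadicAlgCl p))
      (_ : ∀ σ : PadicAlgCl p ≃ₐ[ℚ_[p]] PadicAlgCl p,
        S.map (fun χ => (σ : PadicAlgCl p →+* PadicAlgCl p).comp χ) = S)
      (_ : ∀ χ ∈ S, ∀ r : MvPolynomial A ℤ, ‖χ (j r)‖ ≤ 1), open Classical in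
      (S.filter fun χ => ∀ t ∈ mc A c hG.choose, ‖χ (j t)‖ < 1).card =
        f * (S.filter fun χ => ∀ r, ‖χ (j r) - evc A c r‖ < 1).card := by
  obtain ⟨h1, h2⟩ := hG.choose_spec
  obtain ⟨f, hf, H⟩ := exists_card (p := p) (mc A c hG.choose)
    (p_mem_resIdeal (evc A c) (norm_evc_le hG.choose))
  refine ⟨f, hf, fun {R'} _ j S hS hint => ?_⟩
  have key := H j S hS hint (evc A c) (norm_evc_le hG.choose) (fun r => Iff.rfl)
    (fun _ => ()) (fun _ _ => rfl)
  have h1 := congrArg Multiset.card key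
  rw [Multiset.card_nsmul, Multiset.card_map, Multiset.card_map] at h1
  exact h1

open Classical in
/-- The degree of the residue field of `c` (`1` if it is not finite). -/
def fdeg : ℕ := if hG : Good A c then (exists_fdeg A c hG).choose else 1

lemma fdeg_pos : 0 < fdeg A c := by
  unfold fdeg
  split_ifs with h
  · exact (exists_fdeg A c h).choose_spec.1
  · exact one_pos

open Classical in
/-- The ideal of the Hecke ring defined by `c`. -/
def Jc : Ideal (HR0 p) :=
  if hc : ∀ q ∈ A, ‖c q‖ ≤ 1 then (mc A c hc).map (jA p A) else ⊤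

variable {A c}

/-- The residual class of `c` for systems. -/
def InP (A : Set Nat.Primes) (c : Nat.Primes → PadicAlgCl p) (χ : HR → PadicAlgCl p) : Prop :=
  ∀ q ∈ A, ‖χ (MvPolynomial.X q) - c q‖ < 1

open Classical in
/-- **Counting the systems in the class of `c`.** -/
theorem count_class (hG : Good A c) (hA : ∀ q ∈ A, (q : ℕ) ≠ p)
    {ι : Type} [Fintype ι] [DecidableEq ι] (B : HR →+* Matrix ι ι ℤ)
    (P : (HR →+* PadicAlgCl p) → Prop)
    (hP : ∀ (σ : PadicAlgCl p ≃ₐ[ℚ_[p]] PadicAlgCl p) χ,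
        P ((σ : PadicAlgCl p →+* PadicAlgCl p).comp χ) ↔ P χ) :
    ((SJ B (Jc A c)).filter P).card = fdeg A c *
      ((Sys (matRep (intRep (PadicAlgCl p) B))).filter fun χ : HR →+* PadicAlgCl p => InP A c χ ∧ P χ).card := by
  have hc := hG.choose
  have hH := (exists_fdeg A c hG).choose_spec.2 ((incl p).comp (jA p A))
    ((Sys (matRep (intRep (PadicAlgCl p) B))).filter P) ?_ ?_
  · have e1 : ((SJ B (Jc A c)).filter P) =
        ((Sys (matRep (intRep (PadicAlgCl p) B))).filter P).filter fun χ =>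
          ∀ t ∈ mc A c hG.choose, ‖χ (((incl p).comp (jA p A)) t)‖ < 1 := by
      rw [SJ_eq, Multiset.filter_filter, Multiset.filter_filter]
      apply Multiset.filter_congr
      intro χ hχ
      have h3 := small_iff (jA p A) (mc A c hc) ∅ (χ.comp (incl p))
        (fun r => norm_le_of_mem_Sys B hχ _)
      simp only [RingHom.comp_apply, Ideal.span_empty, sup_bot_eq, Set.mem_empty_iff_false,
        false_imp_iff, imp_true_iff, and_true] at h3 ⊢
      rw [Jc, dif_pos hc, h3]
      tauto
    have e2 : ((Sys (matRep (intRep (PadicAlgCl p) B))).filter fun χ : HR →+* PadicAlgCl p => InP A c χ ∧ P χ) =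
        ((Sys (matRep (intRep (PadicAlgCl p) B))).filter P).filter fun χ =>
          ∀ r, ‖χ (((incl p).comp (jA p A)) r) - evc A c r‖ < 1 := by
      rw [Multiset.filter_filter]
      apply Multiset.filter_congr
      intro χ hχ
      rw [class_iff hc ((incl p).comp (jA p A)) χ (fun r => norm_le_of_mem_Sys B hχ r)]
      have e3 : InP A c χ ↔ ∀ q : A, ‖χ (((incl p).comp (jA p A)) (MvPolynomial.X q)) - c q‖ < 1 := by
        simp only [RingHom.comp_apply, incl_jA hA]
        exact ⟨fun h q => h q q.2, fun h q hq => h ⟨q, hq⟩⟩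
      rw [e3]
    rw [e1, e2, hH, fdeg, dif_pos hG]
  · intro σ
    have h5 : (Sys (matRep (intRep (PadicAlgCl p) B))).filter
        (P ∘ fun χ => (σ : PadicAlgCl p →+* PadicAlgCl p).comp χ) =
        (Sys (matRep (intRep (PadicAlgCl p) B))).filter P :=
      Multiset.filter_congr fun χ _ => hP σ χ
    have h8 := congrArg (Multiset.filter P) (Sys_galois B σ)
    rw [Multiset.filter_map, h5] at h8
    exact h8
  · intro χ hχ r
    exact norm_le_of_mem_Sys B (Multiset.mem_filter.mp hχ).1 _

/-- If there is a system in the class of `c` then the residue field of `c` is finite. -/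
theorem good_of_mem (hc : ∀ q ∈ A, ‖c q‖ ≤ 1) (hA : ∀ q ∈ A, (q : ℕ) ≠ p)
    {ι : Type} [Fintype ι] [DecidableEq ι] (B : HR →+* Matrix ι ι ℤ) (χ : HR →+* PadicAlgCl p)
    (hχ : χ ∈ Sys (matRep (intRep (PadicAlgCl p) B))) (hI : InP A c χ) : Good A c := by
  set f := (incl p).comp (jA p A) with hf
  have h1 : ∀ r, ‖χ (f r) - evc A c r‖ < 1 := by
    rw [class_iff hc f χ (fun r => norm_le_of_mem_Sys B hχ r)]
    intro q
    rw [hf, RingHom.comp_apply, incl_jA hA]
    exact hI q q.2
  have h2 : ∀ r, ‖(χ.comp f) r‖ ≤ 1 := fun r => norm_le_of_mem_Sys B hχ _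
  have h3 : resIdeal (χ.comp f) h2 = mc A c hc := by
    ext r
    change ‖χ (f r)‖ < 1 ↔ ‖evc A c r‖ < 1
    constructor
    · intro h
      have e : evc A c r = χ (f r) - (χ (f r) - evc A c r) := by ring
      rw [e]
      exact norm_sub_lt h (h1 r)
    · intro h
      have e : χ (f r) = (χ (f r) - evc A c r) + evc A c r := by ring
      rw [e]
      exact norm_add_lt (h1 r) h
  have h4 : Module.Finite ℤ (χ.comp f).range :=
    finite_range_of_ker_le (B.comp f) (χ.comp f) fun r hr => eq_zero_of_mem_Sys B hχ hr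
  refine ⟨hc, ?_⟩
  rw [← h3]
  exact ⟨isMaximal_resIdeal _ h2 h4, finite_quotient_resIdeal _ h2 h4⟩

end Cond

open Classical in
/-- **The density of the class of `c` in a source.** -/
def betS (S : Src p) (A : Set Nat.Primes) (c : Nat.Primes → PadicAlgCl p) (n : ℕ) : ℝ :=
  if Good A c ∧ Even n then dens p (ddI S.H (Jc A c)) n / (4 * fdeg A c) else 0

theorem dens_n (S : Src p) (J : Ideal (HR0 p)) (n : ℕ) :
    dens p (ddI S.H J) (n + (p - 1)) = dens p (ddI S.H J) n := by
  unfold dens
  congr 1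
  apply Finset.sum_congr rfl
  intro i _
  rw [ddI_n]

theorem dens_nonneg (dd : ℕ → ℕ → ℕ) (n : ℕ) : 0 ≤ dens p dd n := by
  have h2 : (1 : ℝ) ≤ p := by exact_mod_cast (Fact.out : p.Prime).one_lt.le
  unfold dens
  have h3 : (0 : ℝ) ≤ (p : ℝ) - 1 := by linarith
  positivity

theorem betS_nonneg (S : Src p) (A : Set Nat.Primes) (c : Nat.Primes → PadicAlgCl p) (n : ℕ) :
    0 ≤ betS S A c n := by
  unfold betS
  split_ifs
  · have := dens_nonneg (p := p) (ddI S.H (Jc A c)) n
    positivity
  · exact le_rfl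

theorem betS_n (hp : p ≠ 2) (S : Src p) (A : Set Nat.Primes) (c : Nat.Primes → PadicAlgCl p)
    (n : ℕ) : betS S A c (n + (p - 1)) = betS S A c n := by
  have hodd : Odd p := (Fact.out : p.Prime).odd_of_ne_two hp
  have h1 : Even (n + (p - 1)) ↔ Even n := by
    have h2 : Even (p - 1) := by
      obtain ⟨k, hk⟩ := hodd
      exact ⟨k, by omega⟩
    rw [Nat.even_add]
    tauto
  unfold betS
  rw [dens_n]
  by_cases h3 : Good A c ∧ Even n
  · rw [if_pos h3, if_pos ⟨h3.1, h1.mpr h3.2⟩]
  · rw [if_neg h3, if_neg fun h4 => h3 ⟨h4.1, h1.mp h4.2⟩]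

open Classical in
/-- **The counting functions of the systems in the class of `c`.** -/
theorem apx_betS (S : Src p) (hexc : FewExcStat S.D) {A : Set Nat.Primes} {c : Nat.Primes → PadicAlgCl p}
    (hA : ∀ q ∈ A, (q : ℕ) ≠ p) (hc : ∀ q ∈ A, ‖c q‖ ≤ 1) :
    Apx ((p : ℝ) + 1)
      (fun n x => if hn : Even n then
        (1 / 2) * (((Sys (matRep (intRep (PadicAlgCl p) (S.A n hn)))).filter fun χ : HR →+* PadicAlgCl p =>
          InP A c χ ∧ (p : ℝ) ^ (-x) ≤ ‖χ (Xp p)‖).card : ℝ) else 0)
      (fun n => if hn : Even n then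
        (1 / 2) * (((Sys (matRep (intRep (PadicAlgCl p) (S.A n hn)))).filter fun χ : HR →+* PadicAlgCl p =>
          InP A c χ).card : ℝ) else 0)
      (betS S A c) := by
  by_cases hG : Good A c
  · obtain ⟨s, hd, hs⟩ := exists_summ_fin S.H (Jc A c)
    have hc := fun n hn => source_counts S.D S.H S.A S.hT S.hTV (Jc A c) n hn (s n hn) (hs n hn)
    have hf : (fdeg A c : ℝ) ≠ 0 := by
      exact_mod_cast (fdeg_pos A c).ne'
    refine ((Apx.of_dat S.D hexc s (ddI S.H (Jc A c)) hd
      (ddI_i S.H (Jc A c))).smul (1 / (4 * fdeg A c))).congr ?_ ?_ ?_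
    · intro n x
      by_cases hn : Even n
      · simp only [dif_pos hn]
        rw [(hc n hn).2 x, count_class hG hA (S.A n hn)
          (fun χ => (p : ℝ) ^ (-x) ≤ ‖χ (Xp p)‖) (fun σ χ => by
            have e : ‖(σ : PadicAlgCl p →+* PadicAlgCl p) (χ (Xp p))‖ = ‖χ (Xp p)‖ := norm_aut σ _
            rw [RingHom.comp_apply, e])]
        push_cast
        field_simp
        ring
      · simp only [dif_neg hn, mul_zero]
    · intro n
      by_cases hn : Even n
      · simp only [dif_pos hn]
        have h1 := count_class hG hA (S.A n hn) (fun _ => True) (fun σ χ => Iff.rfl)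
        have h2 : ∀ (T : Multiset (HR →+* PadicAlgCl p))
            (dp : DecidablePred fun _ : HR →+* PadicAlgCl p => True),
            @Multiset.filter _ (fun _ => True) dp T = T :=
          fun T dp => (@Multiset.filter_eq_self _ (fun _ => True) dp T).mpr fun _ _ => trivial
        rw [h2] at h1
        simp only [and_true] at h1
        rw [(hc n hn).1, h1]
        push_cast
        field_simp
        ring
      · simp only [dif_neg hn, mul_zero]
    · intro n
      unfold betS
      by_cases hn : Even n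
      · rw [if_pos ⟨hG, hn⟩, if_pos hn]
        ring
      · rw [if_neg (fun h => hn h.2), if_neg hn, mul_zero]
  · have h0 : ∀ n (hn : Even n), ((Sys (matRep (intRep (PadicAlgCl p) (S.A n hn)))).filter fun χ : HR →+* PadicAlgCl p =>
        InP A c χ) = 0 := by
      intro n hn
      rw [Multiset.filter_eq_nil]
      intro χ hχ hI
      exact hG (good_of_mem hc hA (S.A n hn) χ hχ hI)
    refine Apx.zero.congr ?_ ?_ ?_
    · intro n x
      by_cases hn : Even n
      · simp only [dif_pos hn]
        have h1 : ((Sys (matRep (intRep (PadicAlgCl p) (S.A n hn)))).filter fun χ : HR →+* PadicAlgCl p =>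
          InP A c χ ∧ (p : ℝ) ^ (-x) ≤ ‖χ (Xp p)‖) = 0 := by
          rw [Multiset.filter_eq_nil]
          intro χ hχ hI
          exact hG (good_of_mem hc hA (S.A n hn) χ hχ hI.1)
        rw [h1]
        simp
      · simp only [dif_neg hn]
    · intro n
      by_cases hn : Even n
      · simp only [dif_pos hn]
        rw [h0 n hn]
        simp
      · simp only [dif_neg hn]
    · intro n
      unfold betS
      rw [if_neg (fun h => hG h.1)]

end Gouvea.Sys
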