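import Pool.Agent.Work.MP_d3517d_nt.Sys.Double
import Pool.Agent.Work.MP_d3517d_nt.Apx
import Pool.Agent.Work.MP_d3517d_nt.HRep

/-!
# Counting systems of eigenvalues: from the source to the counting functions
-/

open Polynomial Module Filter Topology Gouvea.PS

noncomputable section

namespace Gouvea.Sys

variable {p : ℕ} [Fact p.Prime]

/-- The Hecke ring: one variable for each prime. -/
abbrev HR : Type := MvPolynomial Nat.Primes ℤ

/-- The Hecke ring without `p`. -/
abbrev HR0 (p : ℕ) : Type := MvPolynomial {l : ℕ // l.Prime ∧ l ≠ p} ℤ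

/-- The inclusion of Hecke rings. -/
def incl (p : ℕ) : HR0 p →+* HR :=
  (MvPolynomial.rename (R := ℤ) fun l : {l : ℕ // l.Prime ∧ l ≠ p} =>
    (⟨l.1, l.2.1⟩ : Nat.Primes)).toRingHom

lemma incl_X (l : {l : ℕ // l.Prime ∧ l ≠ p}) :
    incl p (MvPolynomial.X l) = MvPolynomial.X ⟨l.1, l.2.1⟩ :=
  MvPolynomial.rename_X _ _

/-- The variable `T_p`. -/
def Xp (p : ℕ) [Fact p.Prime] : HR := MvPolynomial.X (⟨p, Fact.out⟩ : Nat.Primes)

/-- The integral matrices over `ℤ_p`. -/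
abbrev intP (p : ℕ) [Fact p.Prime] {R : Type*} [CommRing R] {ι : Type*} [Fintype ι] [DecidableEq ι]
    (A : R →+* Matrix ι ι ℤ) : R →+* Matrix ι ι ℤ_[p] :=
  (Int.castRingHom ℤ_[p]).mapMatrix.comp A

open Classical in
/-- The systems which are small on the ideal `J`. -/
def SJ {ι : Type} [Fintype ι] [DecidableEq ι] (A : HR →+* Matrix ι ι ℤ) (J : Ideal (HR0 p)) :
    Multiset (HR →+* PadicAlgCl p) :=
  (Sys (matRep (toK (intP p A)))).filter fun χ => ∀ t ∈ J, ‖χ (incl p t)‖ < 1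

variable {h : ℕ} {E V : Type} [Fintype E] [DecidableEq E] [Fintype V] [DecidableEq V]

open Classical in
/-- **The counting functions of the source.** -/
theorem source_counts (D : Dat p h E (V × Bool)) (H : HRep D (HR0 p))
    (A : ∀ n : ℕ, Even n → (HR →+* Matrix (V × Fin (n + 1)) (V × Fin (n + 1)) ℤ))
    (hT2 : ∀ n (hn : Even n), ∀ x y, (D.π n * D.W n * D.ι n) x y =
        if x.1.2 = y.1.2 then 0 else ((A n hn (Xp p) (x.1.1, x.2) (y.1.1, y.2) : ℤ) : ℤ_[p]))
    (hTV : ∀ n hn (l : {l : ℕ // l.Prime ∧ l ≠ p}) x y, H.TV n hn (MvPolynomial.X l) x y =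
        if x.1.2 = y.1.2 then
          ((A n hn (MvPolynomial.X ⟨l.1, l.2.1⟩) (x.1.1, x.2) (y.1.1, y.2) : ℤ) : ℤ_[p]) else 0)
    (J : Ideal (HR0 p)) (n : ℕ) (hn : Even n) (s : Summ D n)
    (hs : ∀ v : (V × Bool) × Fin (n + 1) → ℚ_[p],
        (∀ t ∈ J, ∀ i, Tendsto (fun N : ℕ => ((toQ (H.TV n hn t)) ^ N).mulVec v i) atTop (𝓝 0)) ↔
        (toQ s.εV).mulVec v = v) :
    (toQ s.εV).rank = 2 * (SJ (A n hn) J).card ∧
    ∀ x : ℝ, Nf (toQ s.T) x =
      2 * ((SJ (A n hn) J).filter fun χ => (p : ℝ) ^ (-x) ≤ ‖χ (Xp p)‖).card := by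
  have h1 : D.π n * D.W n * D.ι n = bag fun _ => intP p (A n hn) (Xp p) := by
    ext x y
    rw [hT2 n hn, bag_apply]
    rfl
  have h2 : ∀ t, H.TV n hn t = bdg fun _ => intP p (A n hn) (incl p t) := by
    have h3 : H.TV n hn = (bdgHom fun _ => intP p (A n hn)).comp (incl p) := by
      apply MvPolynomial.ringHom_ext
      · intro r
        have e1 : (MvPolynomial.C r : HR0 p) = (r : HR0 p) := by simp
        rw [e1, map_intCast, map_intCast]
      · intro l
        ext x y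
        rw [hTV n hn, RingHom.comp_apply, incl_X]
        change _ = bdg (fun _ => intP p (A n hn) (MvPolynomial.X ⟨l.1, l.2.1⟩)) x y
        rw [bdg_apply]
        rfl
    intro t
    rw [h3]
    rfl
  have hcomm : s.εV * (D.π n * D.W n * D.ι n) = (D.π n * D.W n * D.ι n) * s.εV := by
    rw [← Matrix.mul_assoc, ← Matrix.mul_assoc, ← s.comπ, Matrix.mul_assoc (D.π n), s.comW,
      ← Matrix.mul_assoc, Matrix.mul_assoc (D.π n * D.W n), s.comι]
    simp only [Matrix.mul_assoc]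
  have hT : s.T = s.εV * (D.π n * D.W n * D.ι n) := rfl
  have key := double_counts (incl p) (intP p (A n hn)) (Xp p) J s.εV s.idV
    (by rw [← h1]; exact hcomm) (by
      intro w
      have h4 := hs w
      simp only [h2] at h4
      exact h4)
  rw [hT, h1]
  refine ⟨key.1, fun x => ?_⟩
  rw [key.2 x, SJ, Multiset.filter_filter]
  congr 2
  apply Multiset.filter_congr
  intro χ _
  exact and_comm

open Classical in
/-- **The counting functions at an ideal are approximately linear.** -/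
theorem apx_source (D : Dat p h E (V × Bool)) (H : HRep D (HR0 p)) (hexc : FewExcStat D)
    (A : ∀ n : ℕ, Even n → (HR →+* Matrix (V × Fin (n + 1)) (V × Fin (n + 1)) ℤ))
    (hT2 : ∀ n (hn : Even n), ∀ x y, (D.π n * D.W n * D.ι n) x y =
        if x.1.2 = y.1.2 then 0 else ((A n hn (Xp p) (x.1.1, x.2) (y.1.1, y.2) : ℤ) : ℤ_[p]))
    (hTV : ∀ n hn (l : {l : ℕ // l.Prime ∧ l ≠ p}) x y, H.TV n hn (MvPolynomial.X l) x y =
        if x.1.2 = y.1.2 then
          ((A n hn (MvPolynomial.X ⟨l.1, l.2.1⟩) (x.1.1, x.2) (y.1.1, y.2) : ℤ) : ℤ_[p]) else 0)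
    (J : Ideal (HR0 p)) :
    ∃ (s : ∀ n, Even n → Summ D n) (dd : ℕ → ℕ → ℕ),
      (∀ n hn i, (s n hn).d i = dd n i) ∧ (∀ n i, dd (n + (p - 1)) i = dd n i) ∧
      (∀ n i, dd n (i + (p - 1)) = dd n i) ∧
      (∀ n hn, (toQ (s n hn).εV).rank = 2 * (SJ (A n hn) J).card) ∧
      Apx ((p : ℝ) + 1)
        (fun n x => if hn : Even n then
          (((SJ (A n hn) J).filter fun χ => (p : ℝ) ^ (-x) ≤ ‖χ (Xp p)‖).card : ℝ) else 0)
        (fun n => if hn : Even n then ((SJ (A n hn) J).card : ℝ) else 0)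
        (fun n => (1 / 2) * if Even n then dens p dd n else 0) := by
  obtain ⟨s, dd, hd, hdn, hdi, hs⟩ := exists_summ H J
  have hc := fun n hn => source_counts D H A hT2 hTV J n hn (s n hn) (hs n hn)
  refine ⟨s, dd, hd, hdn, hdi, fun n hn => (hc n hn).1, ?_⟩
  refine ((Apx.of_dat D hexc s dd hd hdi).smul (1 / 2)).congr ?_ ?_ (fun n => rfl)
  · intro n x
    by_cases hn : Even n
    · simp only [dif_pos hn]
      rw [(hc n hn).2 x]
      push_cast
      ring
    · simp only [dif_neg hn, mul_zero]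
  · intro n
    by_cases hn : Even n
    · simp only [dif_pos hn]
      rw [(hc n hn).1]
      push_cast
      ring
    · simp only [dif_neg hn, mul_zero]

end Gouvea.Sys
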