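import Mathlib

/-!
# Residual classes of systems of eigenvalues and the Galois group

`R` is a commutative ring (the Hecke ring), a system of eigenvalues is a ring homomorphism
`R →+* \bar ℚ_p`.  The systems with a given residual maximal ideal fall into `f` residual
classes, which are permuted transitively by the Galois group.
-/

open Polynomial

noncomputable section

namespace Gouvea.Sys

variable {p : ℕ} [Fact p.Prime]

lemma norm_aut (σ : PadicAlgCl p ≃ₐ[ℚ_[p]] PadicAlgCl p) (x : PadicAlgCl p) : ‖σ x‖ = ‖x‖ := by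
  rw [← PadicAlgCl.spectralNorm_eq, ← PadicAlgCl.spectralNorm_eq]
  exact (spectralNorm_eq_of_equiv σ x).symm

lemma norm_add_lt {x y : PadicAlgCl p} {r : ℝ} (hx : ‖x‖ < r) (hy : ‖y‖ < r) : ‖x + y‖ < r :=
  lt_of_le_of_lt (IsUltrametricDist.norm_add_le_max x y) (max_lt hx hy)

lemma norm_sub_lt {x y : PadicAlgCl p} {r : ℝ} (hx : ‖x‖ < r) (hy : ‖y‖ < r) : ‖x - y‖ < r := by
  rw [sub_eq_add_neg]
  exact norm_add_lt hx (by rwa [norm_neg])

lemma norm_add_le_one {x y : PadicAlgCl p} (hx : ‖x‖ ≤ 1) (hy : ‖y‖ ≤ 1) : ‖x + y‖ ≤ 1 :=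
  (IsUltrametricDist.norm_add_le_max x y).trans (max_le hx hy)

lemma norm_sub_le_one {x y : PadicAlgCl p} (hx : ‖x‖ ≤ 1) (hy : ‖y‖ ≤ 1) : ‖x - y‖ ≤ 1 := by
  rw [sub_eq_add_neg]
  exact norm_add_le_one hx (by rwa [norm_neg])

lemma norm_eq_one_of_sub {x y : PadicAlgCl p} (hx : ‖x‖ = 1) (hy : ‖y - x‖ < 1) : ‖y‖ = 1 := by
  have h : y = x + (y - x) := by ring
  rw [h, IsUltrametricDist.norm_add_eq_max_of_norm_ne_norm (by rw [hx]; exact hy.ne'), hx]
  exact max_eq_left hy.le

lemma norm_int_le (n : ℤ) : ‖(n : PadicAlgCl p)‖ ≤ 1 := by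
  have h : (n : PadicAlgCl p) = ((n : ℚ_[p]) : PadicAlgCl p) := by
    simp
  rw [h, PadicAlgCl.norm_extends]
  exact Padic.norm_int_le_one n

/-- Difference of powers. -/
lemma norm_pow_sub_lt {x y : PadicAlgCl p} (hx : ‖x‖ ≤ 1) (hy : ‖y‖ ≤ 1) (h : ‖x - y‖ < 1)
    (n : ℕ) : ‖x ^ n - y ^ n‖ < 1 := by
  induction n with
  | zero => simp
  | succ n ih =>
    have e : x ^ (n + 1) - y ^ (n + 1) = (x ^ n - y ^ n) * x + y ^ n * (x - y) := by ring
    rw [e]
    apply norm_add_lt
    · rw [norm_mul]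
      calc ‖x ^ n - y ^ n‖ * ‖x‖ ≤ ‖x ^ n - y ^ n‖ * 1 := by gcongr
        _ < 1 := by rwa [mul_one]
    · rw [norm_mul, norm_pow]
      calc ‖y‖ ^ n * ‖x - y‖ ≤ 1 * ‖x - y‖ := by
            gcongr
            exact pow_le_one₀ (norm_nonneg _) hy
        _ < 1 := by rwa [one_mul]

/-- Evaluation of integer polynomials at integral elements. -/
lemma norm_eval_le {x : PadicAlgCl p} (hx : ‖x‖ ≤ 1) (g : ℤ[X]) : ‖aeval x g‖ ≤ 1 := by
  induction g using Polynomial.induction_on' with
  | add g h hg hh =>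
    rw [map_add]
    exact norm_add_le_one hg hh
  | monomial n a =>
    rw [aeval_monomial, norm_mul, norm_pow]
    have h1 : ‖(algebraMap ℤ (PadicAlgCl p)) a‖ ≤ 1 := by
      rw [eq_intCast]
      exact norm_int_le a
    calc ‖(algebraMap ℤ (PadicAlgCl p)) a‖ * ‖x‖ ^ n ≤ 1 * 1 ^ n := by gcongr
      _ = 1 := by simp

/-- A monic integral equation bounds the norm. -/
lemma norm_root_le {b : PadicAlgCl p} {g : ℤ[X]} (hg : g.Monic) (hb : aeval b g = 0) :
    ‖b‖ ≤ 1 := by
  by_contra hcon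
  push Not at hcon
  have hd : 0 < g.natDegree := by
    rcases Nat.eq_zero_or_pos g.natDegree with h0 | h0
    · rw [hg.natDegree_eq_zero.mp h0] at hb
      simp at hb
    · exact h0
  have h1 : b ^ g.natDegree = - ∑ i ∈ Finset.range g.natDegree, (g.coeff i : PadicAlgCl p) * b ^ i := by
    rw [aeval_eq_sum_range, Finset.sum_range_succ, hg.coeff_natDegree, one_smul] at hb
    have h2 : ∑ i ∈ Finset.range g.natDegree, (g.coeff i : PadicAlgCl p) * b ^ i =
        ∑ i ∈ Finset.range g.natDegree, g.coeff i • b ^ i := by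
      refine Finset.sum_congr rfl fun i _ => ?_
      rw [zsmul_eq_mul]
    rw [h2]
    linear_combination hb
  have h3 : ‖∑ i ∈ Finset.range g.natDegree, (g.coeff i : PadicAlgCl p) * b ^ i‖ ≤
      ‖b‖ ^ (g.natDegree - 1) := by
    refine IsUltrametricDist.norm_sum_le_of_forall_le_of_nonneg (by positivity) ?_
    intro i hi
    rw [norm_mul, norm_pow]
    have h4 : i ≤ g.natDegree - 1 := by
      have := Finset.mem_range.mp hi
      omega
    calc ‖(g.coeff i : PadicAlgCl p)‖ * ‖b‖ ^ i ≤ 1 * ‖b‖ ^ (g.natDegree - 1) := by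
          gcongr
          · exact norm_int_le _
          · exact hcon.le
      _ = _ := one_mul _
  have h5 : ‖b‖ ^ g.natDegree ≤ ‖b‖ ^ (g.natDegree - 1) := by
    rw [← norm_pow, h1, norm_neg]
    exact h3
  have h6 : ‖b‖ ^ (g.natDegree - 1) < ‖b‖ ^ g.natDegree :=
    pow_lt_pow_right₀ hcon (by omega)
  linarith

/-- The polynomial `h` over `\bar ℚ_p`. -/
abbrev hK (p : ℕ) [Fact p.Prime] (h : ℤ[X]) : (PadicAlgCl p)[X] :=
  h.map (Int.castRingHom (PadicAlgCl p))

lemma aeval_eq_eval_hK (h : ℤ[X]) (x : PadicAlgCl p) : aeval x h = (hK p h).eval x := by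
  rw [aeval_def, eval_map]
  rfl

lemma prod_norm_sub {h : ℤ[X]} (hm : h.Monic) (x : PadicAlgCl p) :
    ‖aeval x h‖ = (((hK p h).roots).map fun b => ‖x - b‖).prod := by
  have hs := IsAlgClosed.splits (hK p h)
  have hm' : (hK p h).Monic := hm.map _
  have h1 := hs.eq_prod_roots_of_monic hm'
  rw [aeval_eq_eval_hK]
  conv_lhs => rw [h1]
  rw [eval_multiset_prod, Multiset.map_map]
  have h2 : ∀ s : Multiset (PadicAlgCl p), ‖(s.map ((eval x) ∘ fun a => X - C a)).prod‖ =
      (s.map fun b => ‖x - b‖).prod := by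
    intro s
    induction s using Multiset.induction_on with
    | empty => simp
    | cons a s ih => simp only [Multiset.map_cons, Multiset.prod_cons, norm_mul, ih]; simp
  exact h2 _

/-- `x` close to a root of `h` modulo the maximal ideal. -/
lemma exists_near {h : ℤ[X]} (hm : h.Monic) {x : PadicAlgCl p} (hx : ‖x‖ ≤ 1)
    (hh : ‖aeval x h‖ < 1) : ∃ b, aeval b h = 0 ∧ ‖x - b‖ < 1 := by
  by_contra hcon
  push Not at hcon
  rw [prod_norm_sub hm] at hh
  have h1 : ∀ b ∈ (hK p h).roots, aeval b h = 0 := by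
    intro b hb
    rw [aeval_eq_eval_hK]
    exact (mem_roots'.mp hb).2
  have h2 : (((hK p h).roots).map fun b => ‖x - b‖).prod = 1 := by
    apply Multiset.prod_eq_one
    intro c hc
    obtain ⟨b, hb, rfl⟩ := Multiset.mem_map.mp hc
    apply le_antisymm
    · exact norm_sub_le_one hx (norm_root_le hm (h1 b hb))
    · exact hcon b (h1 b hb)
  linarith

lemma map_eq_zero_dvd {g : ℤ[X]} (hg : g.map (Int.castRingHom (ZMod p)) = 0) :
    ∃ w : ℤ[X], g = C (p : ℤ) * w := by
  have h1 : C (p : ℤ) ∣ g := by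
    rw [C_dvd_iff_dvd_coeff]
    intro i
    have h2 := congrArg (fun q => q.coeff i) hg
    simp only [coeff_map, eq_intCast, coeff_zero] at h2
    exact (ZMod.intCast_zmod_eq_zero_iff_dvd _ _).mp h2
  exact h1

lemma norm_p_lt : ‖(p : PadicAlgCl p)‖ < 1 := by
  have h : (p : PadicAlgCl p) = ((p : ℚ_[p]) : PadicAlgCl p) := by simp
  rw [h, PadicAlgCl.norm_extends]
  exact Padic.norm_p_lt_one

lemma prod_mem_unit {α : Type*} (s : Multiset α) (f : α → ℝ) (hf : ∀ a ∈ s, 0 ≤ f a ∧ f a ≤ 1) :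
    (s.map f).prod ≤ 1 ∧ 0 ≤ (s.map f).prod := by
  induction s using Multiset.induction_on with
  | empty => simp
  | cons a s ih =>
    rw [Multiset.map_cons, Multiset.prod_cons]
    have h1 := ih fun b hb => hf b (Multiset.mem_cons_of_mem hb)
    have h2 := hf a (Multiset.mem_cons_self a s)
    exact ⟨mul_le_one₀ h2.2 h1.2 h1.1, mul_nonneg h2.1 h1.2⟩

section Sep

variable {h : ℤ[X]} (hm : h.Monic) (hi : Irreducible (h.map (Int.castRingHom (ZMod p))))

include hm hi

open Classical in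
/-- The roots of `h` are simple and pairwise incongruent. -/
lemma prod_erase {b : PadicAlgCl p} (hb : b ∈ (hK p h).roots) :
    ((((hK p h).roots).erase b).map fun a => ‖b - a‖).prod = 1 := by
  have hs := IsAlgClosed.splits (hK p h)
  have hm' : (hK p h).Monic := hm.map _
  have h1 := hs.eval_root_derivative hm' hb
  have hb0 : aeval b h = 0 := by
    rw [aeval_eq_eval_hK]
    exact (mem_roots'.mp hb).2
  have hb1 : ‖b‖ ≤ 1 := norm_root_le hm hb0
  have hsep : (h.map (Int.castRingHom (ZMod p))).Separable := PerfectField.separable_of_irreducible hi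
  obtain ⟨u, v, huv⟩ := hsep
  obtain ⟨u', rfl⟩ := Polynomial.map_surjective _ (ZMod.ringHom_surjective (Int.castRingHom (ZMod p))) u
  obtain ⟨v', rfl⟩ := Polynomial.map_surjective _ (ZMod.ringHom_surjective (Int.castRingHom (ZMod p))) v
  have h2 : (u' * h + v' * derivative h - 1).map (Int.castRingHom (ZMod p)) = 0 := by
    rw [Polynomial.map_sub, Polynomial.map_add, Polynomial.map_mul, Polynomial.map_mul,
      ← derivative_map, huv, Polynomial.map_one, sub_self]
  obtain ⟨w, hw⟩ := map_eq_zero_dvd h2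
  have h3 := congrArg (fun q => aeval b q) hw
  simp only [map_sub, map_add, map_mul, hb0, mul_zero, zero_add, map_one, aeval_C] at h3
  have h4 : ‖aeval b v' * aeval b (derivative h)‖ = 1 := by
    apply norm_eq_one_of_sub (x := 1) norm_one
    rw [h3, norm_mul]
    have h5 : ‖(algebraMap ℤ (PadicAlgCl p)) (p : ℤ)‖ < 1 := by
      have : (algebraMap ℤ (PadicAlgCl p)) (p : ℤ) = (p : PadicAlgCl p) := by simp
      rw [this]
      exact norm_p_lt
    calc _ ≤ ‖(algebraMap ℤ (PadicAlgCl p)) (p : ℤ)‖ * 1 := by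
          gcongr
          exact norm_eval_le hb1 w
      _ < 1 := by rwa [mul_one]
  have h6 : ‖aeval b (derivative h)‖ = 1 := by
    rw [norm_mul] at h4
    have h7 := norm_eval_le hb1 v'
    have h8 := norm_eval_le hb1 (derivative h)
    apply le_antisymm h8
    by_contra hcon
    push Not at hcon
    have : ‖aeval b v'‖ * ‖aeval b (derivative h)‖ < 1 := by
      calc _ ≤ 1 * ‖aeval b (derivative h)‖ := by gcongr
        _ < 1 := by rwa [one_mul]
    linarith
  have h9 : aeval b (derivative h) = (((hK p h).roots.erase b).map fun a => b - a).prod := by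
    rw [← h1, aeval_def, derivative_map, eval_map]
    rfl
  rw [h9] at h6
  have h10 : ∀ s : Multiset (PadicAlgCl p), ‖(s.map fun a => b - a).prod‖ =
      (s.map fun a => ‖b - a‖).prod := by
    intro s
    induction s using Multiset.induction_on with
    | empty => simp
    | cons a s ih => simp [ih]
  rw [← h10]
  exact h6

lemma roots_nodup : (hK p h).roots.Nodup := by
  classical
  rw [Multiset.nodup_iff_count_le_one]
  intro b
  by_contra hcon
  push Not at hcon
  have hb : b ∈ (hK p h).roots := Multiset.count_pos.mp (by omega)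
  have h1 := prod_erase hm hi hb
  have h2 : b ∈ (hK p h).roots.erase b := by
    rw [← Multiset.count_pos, Multiset.count_erase_self]
    omega
  have h3 : ((((hK p h).roots).erase b).map fun a => ‖b - a‖).prod = 0 := by
    apply Multiset.prod_eq_zero
    rw [Multiset.mem_map]
    exact ⟨b, h2, by simp⟩
  rw [h3] at h1
  exact zero_ne_one h1

lemma roots_sep {b c : PadicAlgCl p} (hb : aeval b h = 0) (hc : aeval c h = 0)
    (hbc : ‖b - c‖ < 1) : b = c := by
  classical
  by_contra hne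
  have hm0 : hK p h ≠ 0 := (hm.map _).ne_zero
  have hb' : b ∈ (hK p h).roots := by
    rw [mem_roots hm0, IsRoot.def, ← aeval_eq_eval_hK]
    exact hb
  have hc' : c ∈ (hK p h).roots := by
    rw [mem_roots hm0, IsRoot.def, ← aeval_eq_eval_hK]
    exact hc
  have h1 := prod_erase hm hi hb'
  have h2 : c ∈ (hK p h).roots.erase b := (Multiset.mem_erase_of_ne (Ne.symm hne)).mpr hc'
  obtain ⟨s, hs⟩ := Multiset.exists_cons_of_mem h2
  rw [hs, Multiset.map_cons, Multiset.prod_cons] at h1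
  have h3 : (s.map fun a => ‖b - a‖).prod ≤ 1 ∧ 0 ≤ (s.map fun a => ‖b - a‖).prod := by
    apply prod_mem_unit
    intro a ha
    have ha' : a ∈ (hK p h).roots := by
      apply Multiset.mem_of_mem_erase (a := a) (b := b)
      rw [hs]
      exact Multiset.mem_cons_of_mem ha
    have ha0 : aeval a h = 0 := by
      rw [aeval_eq_eval_hK]
      exact (mem_roots'.mp ha').2
    exact ⟨norm_nonneg _, norm_sub_le_one (norm_root_le hm hb) (norm_root_le hm ha0)⟩
  obtain ⟨h3, h4⟩ := h3
  nlinarith [norm_nonneg (b - c)]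

/-- The roots of `h` are conjugate over `ℚ_p`. -/
lemma exists_aut {b c : PadicAlgCl p} (hb : aeval b h = 0) (hc : aeval c h = 0) :
    ∃ σ : PadicAlgCl p ≃ₐ[ℚ_[p]] PadicAlgCl p, σ b = c := by
  have h1 : (h.map (Int.castRingHom ℤ_[p])).Monic := hm.map _
  have h2 : Irreducible (h.map (Int.castRingHom ℤ_[p])) := by
    apply Monic.irreducible_of_irreducible_map (PadicInt.toZMod (p := p)) _ h1
    rw [Polynomial.map_map]
    have : (PadicInt.toZMod (p := p)).comp (Int.castRingHom ℤ_[p]) = Int.castRingHom (ZMod p) :=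
      RingHom.ext_int _ _
    rwa [this]
  have h3 : Irreducible ((h.map (Int.castRingHom ℤ_[p])).map (algebraMap ℤ_[p] ℚ_[p])) :=
    (Monic.irreducible_iff_irreducible_map_fraction_map (K := ℚ_[p]) h1).mp h2
  rw [Polynomial.map_map] at h3
  have h4 : (algebraMap ℤ_[p] ℚ_[p]).comp (Int.castRingHom ℤ_[p]) = Int.castRingHom ℚ_[p] :=
    RingHom.ext_int _ _
  rw [h4] at h3
  have h5 : ∀ x : PadicAlgCl p, aeval x (h.map (Int.castRingHom ℚ_[p])) = aeval x h := by
    intro x
    rw [aeval_def, eval₂_map, aeval_def]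
    congr 1
  have h6 : minpoly ℚ_[p] b = h.map (Int.castRingHom ℚ_[p]) := by
    symm
    apply minpoly.eq_of_irreducible_of_monic h3
    · rw [h5]; exact hb
    · exact hm.map _
  have h7 : aeval c (minpoly ℚ_[p] b) = 0 := by
    rw [h6, h5]
    exact hc
  exact minpoly.exists_algEquiv_of_root' (Algebra.IsAlgebraic.isAlgebraic b) h7

end Sep

/-- A generator of the residue field. -/
lemma exists_gen {R : Type*} [CommRing R] (m : Ideal R) [m.IsMaximal] (hp : (p : R) ∈ m)
    [Finite (R ⧸ m)] : ∃ (r0 : R) (h : ℤ[X]), h.Monic ∧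
      Irreducible (h.map (Int.castRingHom (ZMod p))) ∧ aeval r0 h ∈ m ∧
      ∀ r, r ∈ m ∨ ∃ i : ℕ, r - r0 ^ i ∈ m := by
  let _ : Field (R ⧸ m) := Ideal.Quotient.field m
  have hchar : CharP (R ⧸ m) p := by
    have h1 : ((p : ℕ) : R ⧸ m) = 0 := by
      have : ((p : ℕ) : R ⧸ m) = Ideal.Quotient.mk m (p : R) := by simp
      rw [this]
      exact Ideal.Quotient.eq_zero_iff_mem.mpr hp
    exact (CharP.charP_iff_prime_eq_zero (Fact.out : p.Prime)).mpr h1
  let _ : Algebra (ZMod p) (R ⧸ m) := ZMod.algebra _ p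
  obtain ⟨g, hg⟩ := IsCyclic.exists_generator (α := (R ⧸ m)ˣ)
  obtain ⟨r0, hr0⟩ := Ideal.Quotient.mk_surjective (I := m) (g : R ⧸ m)
  have hint : IsIntegral (ZMod p) (g : R ⧸ m) := Algebra.IsIntegral.isIntegral _
  obtain ⟨h, hh1, -, hh3⟩ := lifts_and_natDegree_eq_and_monic
    (f := Int.castRingHom (ZMod p)) (p := minpoly (ZMod p) (g : R ⧸ m))
    ((mem_lifts _).mpr (Polynomial.map_surjective _ (ZMod.ringHom_surjective _) _))
    (minpoly.monic hint)
  refine ⟨r0, h, hh3, ?_, ?_, ?_⟩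
  · rw [hh1]
    exact minpoly.irreducible hint
  · rw [← Ideal.Quotient.eq_zero_iff_mem]
    have h1 : Ideal.Quotient.mk m (aeval r0 h) = aeval (g : R ⧸ m) h := by
      rw [← hr0, aeval_def, aeval_def, hom_eval₂]
      congr 1
    rw [h1]
    have h2 := minpoly.aeval (ZMod p) (g : R ⧸ m)
    rw [← hh1, aeval_def, eval₂_map] at h2
    rw [aeval_def]
    have h3 : (algebraMap (ZMod p) (R ⧸ m)).comp (Int.castRingHom (ZMod p)) =
        algebraMap ℤ (R ⧸ m) := RingHom.ext_int _ _
    rw [h3] at h2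
    exact h2
  · intro r
    by_cases hr : r ∈ m
    · exact Or.inl hr
    · right
      have h1 : Ideal.Quotient.mk m r ≠ 0 := fun h => hr (Ideal.Quotient.eq_zero_iff_mem.mp h)
      obtain ⟨i, hi⟩ := Subgroup.mem_zpowers_iff.mp (hg (Units.mk0 _ h1))
      have hfin : Finite (R ⧸ m)ˣ := inferInstance
      obtain ⟨j, hj⟩ := (mem_powers_iff_mem_zpowers.mpr (hg (Units.mk0 _ h1)) :
        Units.mk0 _ h1 ∈ Submonoid.powers g)
      refine ⟨j, ?_⟩
      rw [← Ideal.Quotient.eq_zero_iff_mem, map_sub, map_pow, hr0]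
      have h2 := congrArg Units.val hj
      simp only [Units.val_pow_eq_pow_val, Units.val_mk0] at h2
      rw [h2, sub_self]

open Classical in
lemma filter_eq_sum {α β : Type*} (S : Multiset α) (X : α → Prop) (B : Finset β)
    (P : β → α → Prop) (hex : ∀ a ∈ S, X a → ∃ b ∈ B, P b a)
    (huniq : ∀ a b c, b ∈ B → c ∈ B → X a → P b a → P c a → b = c) :
    S.filter X = ∑ b ∈ B, S.filter fun a => X a ∧ P b a := by
  ext a
  rw [Multiset.count_sum']
  simp only [Multiset.count_filter]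
  by_cases haS : a ∈ S
  · by_cases hX : X a
    · obtain ⟨b, hb, hPb⟩ := hex a haS hX
      rw [Finset.sum_eq_single b]
      · simp [hX, hPb]
      · intro c hc hcb
        rw [if_neg]
        rintro ⟨_, hPc⟩
        exact hcb (huniq a c b hc hb hX hPc hPb)
      · intro h
        exact absurd hb h
    · simp [hX]
  · have : Multiset.count a S = 0 := Multiset.count_eq_zero.mpr haS
    simp [this]

open Classical in
/-- **The residual classes over a given maximal ideal have the same contents.** -/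
theorem exists_card {R : Type*} [CommRing R] (m : Ideal R) [m.IsMaximal] (hp : (p : R) ∈ m)
    [Finite (R ⧸ m)] : ∃ f : ℕ, 0 < f ∧ ∀ {R' : Type*} [CommRing R'] (j : R →+* R')
      (S : Multiset (R' →+* PadicAlgCl p))
      (_ : ∀ σ : PadicAlgCl p ≃ₐ[ℚ_[p]] PadicAlgCl p,
        S.map (fun χ => (σ : PadicAlgCl p →+* PadicAlgCl p).comp χ) = S)
      (_ : ∀ χ ∈ S, ∀ r : R, ‖χ (j r)‖ ≤ 1)
      (χ0 : R →+* PadicAlgCl p) (_ : ∀ r, ‖χ0 r‖ ≤ 1) (_ : ∀ r, r ∈ m ↔ ‖χ0 r‖ < 1)
      {α : Type*} (F : (R' →+* PadicAlgCl p) → α)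
      (_ : ∀ (σ : PadicAlgCl p ≃ₐ[ℚ_[p]] PadicAlgCl p) χ,
        F ((σ : PadicAlgCl p →+* PadicAlgCl p).comp χ) = F χ),
      (S.filter fun χ => ∀ t ∈ m, ‖χ (j t)‖ < 1).map F =
        f • (S.filter fun χ => ∀ r, ‖χ (j r) - χ0 r‖ < 1).map F := by
  obtain ⟨r0, h, hm, hi, hr0, hgen⟩ := exists_gen (p := p) m hp
  have hm0 : hK p h ≠ 0 := (hm.map _).ne_zero
  have hroot : ∀ b, b ∈ (hK p h).roots.toFinset ↔ aeval b h = 0 := by
    intro b
    rw [Multiset.mem_toFinset, mem_roots hm0, IsRoot.def, ← aeval_eq_eval_hK]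
  refine ⟨(hK p h).roots.toFinset.card, ?_, ?_⟩
  · rw [Finset.card_pos]
    have hd : (hK p h).degree ≠ 0 := by
      have h1 : (h.map (Int.castRingHom (ZMod p))).natDegree ≠ 0 := hi.natDegree_pos.ne'
      rw [hm.natDegree_map] at h1
      rw [hm.degree_map, degree_eq_natDegree hm.ne_zero]
      exact_mod_cast h1
    obtain ⟨b, hb⟩ := IsAlgClosed.exists_root (hK p h) hd
    exact ⟨b, by rw [Multiset.mem_toFinset, mem_roots hm0]; exact hb⟩
  intro R' _ j S hS hint χ0 h0 hmem α F hF
  -- transfer of `h(r0)` to values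
  have hval : ∀ (χ : R →+* PadicAlgCl p), aeval (χ r0) h = χ (aeval r0 h) := by
    intro χ
    rw [aeval_def, aeval_def, hom_eval₂]
    congr 1
    exact RingHom.ext_int _ _
  have hnear0 : ‖aeval (χ0 r0) h‖ < 1 := by
    rw [hval]
    exact (hmem _).mp hr0
  obtain ⟨b0, hb0, hb0'⟩ := exists_near hm (h0 r0) hnear0
  set Q : PadicAlgCl p → (R' →+* PadicAlgCl p) → Prop :=
    fun b χ => (∀ t ∈ m, ‖χ (j t)‖ < 1) ∧ ‖χ (j r0) - b‖ < 1 with hQ
  have h1 : (S.filter fun χ => ∀ t ∈ m, ‖χ (j t)‖ < 1) =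
      ∑ b ∈ (hK p h).roots.toFinset, S.filter (Q b) := by
    apply filter_eq_sum S _ _ (fun b χ => ‖χ (j r0) - b‖ < 1)
    · intro χ hχ hX
      have h2 : ‖aeval (χ (j r0)) h‖ < 1 := by
        have := hval (χ.comp j)
        simp only [RingHom.comp_apply] at this
        rw [this]
        exact hX _ hr0
      obtain ⟨b, hb, hb'⟩ := exists_near hm (hint χ hχ r0) h2
      exact ⟨b, (hroot b).mpr hb, hb'⟩
    · intro χ b c hb hc _ hPb hPc
      apply roots_sep hm hi ((hroot b).mp hb) ((hroot c).mp hc)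
      have e : b - c = (χ (j r0) - c) - (χ (j r0) - b) := by ring
      rw [e]
      exact norm_sub_lt hPc hPb
  have h2 : ∀ b ∈ (hK p h).roots.toFinset, (S.filter (Q b)).map F = (S.filter (Q b0)).map F := by
    intro b hb
    obtain ⟨σ, hσ⟩ := exists_aut hm hi hb0 ((hroot b).mp hb)
    have h3 : S.filter (Q b) =
        (S.filter (Q b0)).map fun χ => (σ : PadicAlgCl p →+* PadicAlgCl p).comp χ := by
      conv_lhs => rw [← hS σ]
      rw [Multiset.filter_map]
      congr 1
      apply Multiset.filter_congr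
      intro χ _
      simp only [hQ, Function.comp_apply, RingHom.comp_apply]
      have e1 : ∀ x, ‖(σ : PadicAlgCl p →+* PadicAlgCl p) x‖ = ‖x‖ := fun x => norm_aut σ x
      constructor
      · rintro ⟨ha, hb⟩
        refine ⟨fun t ht => by rw [← e1]; exact ha t ht, ?_⟩
        rw [← e1, map_sub]
        have : (σ : PadicAlgCl p →+* PadicAlgCl p) b0 = b := hσ
        rw [this]
        exact hb
      · rintro ⟨ha, hb⟩
        refine ⟨fun t ht => by rw [e1]; exact ha t ht, ?_⟩
        rw [← e1, map_sub] at hb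
        have : (σ : PadicAlgCl p →+* PadicAlgCl p) b0 = b := hσ
        rw [this] at hb
        exact hb
    rw [h3, Multiset.map_map]
    apply Multiset.map_congr rfl
    intro χ _
    exact hF σ χ
  have h3 : S.filter (Q b0) = S.filter fun χ => ∀ r, ‖χ (j r) - χ0 r‖ < 1 := by
    apply Multiset.filter_congr
    intro χ hχ
    have hr0n : ‖χ0 r0 - b0‖ < 1 := hb0'
    constructor
    · rintro ⟨ha, hb⟩ r
      have hr0' : ‖χ (j r0) - χ0 r0‖ < 1 := by
        have e : χ (j r0) - χ0 r0 = (χ (j r0) - b0) - (χ0 r0 - b0) := by ring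
        rw [e]
        exact norm_sub_lt hb hr0n
      rcases hgen r with hr | ⟨i, hi'⟩
      · exact norm_sub_lt (ha r hr) ((hmem r).mp hr)
      · have e : χ (j r) - χ0 r = (χ (j (r - r0 ^ i)) - χ0 (r - r0 ^ i)) +
            (χ (j r0) ^ i - χ0 r0 ^ i) := by
          simp only [map_sub, map_pow]
          ring
        rw [e]
        apply norm_add_lt (norm_sub_lt (ha _ hi') ((hmem _).mp hi'))
        exact norm_pow_sub_lt (hint χ hχ r0) (h0 r0) hr0' i
    · intro ha
      refine ⟨fun t ht => ?_, ?_⟩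
      · have e : χ (j t) = (χ (j t) - χ0 t) + χ0 t := by ring
        rw [e]
        exact norm_add_lt (ha t) ((hmem t).mp ht)
      · have e : χ (j r0) - b0 = (χ (j r0) - χ0 r0) + (χ0 r0 - b0) := by ring
        rw [e]
        exact norm_add_lt (ha r0) hr0n
  rw [h1]
  have h4 : ∀ B : Finset (PadicAlgCl p), (∀ b ∈ B, b ∈ (hK p h).roots.toFinset) →
      (∑ b ∈ B, S.filter (Q b)).map F = B.card • (S.filter (Q b0)).map F := by
    intro B hB
    induction B using Finset.induction_on with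
    | empty => simp
    | insert b B hb ih =>
      rw [Finset.sum_insert hb, Multiset.map_add, h2 b (hB b (Finset.mem_insert_self b B)),
        ih fun c hc => hB c (Finset.mem_insert_of_mem hc), Finset.card_insert_of_notMem hb,
        succ_nsmul']
  rw [h4 _ fun b hb => hb, h3]

end Gouvea.Sys
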