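import Pool.Agent.Work.MP_d3517d_nt.ES.Transfer
import Pool.Agent.Work.MP_d3517d_nt.Sys.Galois
import Pool.Agent.Work.MP_d3517d_nt.Idem

/-!
# The part of a lattice at an ideal, in terms of systems of eigenvalues
-/

open Polynomial Module Filter Topology Pool.Agent.Gouv

noncomputable section

namespace Gouvea.Sys

variable {p : ℕ} [Fact p.Prime]

section vec

variable {ι : Type*} [Fintype ι]

/-- A coordinate of maximal norm. -/
lemma exists_max_coord {v : ι → PadicAlgCl p} (hv : v ≠ 0) :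
    ∃ i, 0 < ‖v i‖ ∧ ∀ j, ‖v j‖ ≤ ‖v i‖ := by
  obtain ⟨j, hj⟩ := Function.ne_iff.mp hv
  obtain ⟨i, _, hi⟩ := Finset.exists_max_image Finset.univ (fun i => ‖v i‖) ⟨j, Finset.mem_univ j⟩
  refine ⟨i, ?_, fun j => hi j (Finset.mem_univ j)⟩
  exact lt_of_lt_of_le (norm_pos_iff.mpr hj) (hi j (Finset.mem_univ j))

lemma norm_eig_le {B : Matrix ι ι (PadicAlgCl p)} {c : ℝ} (hc : 0 ≤ c) (hB : ∀ i j, ‖B i j‖ ≤ c)
    {v : ι → PadicAlgCl p} (hv : v ≠ 0) {l : PadicAlgCl p} (h : B.mulVec v = l • v) : ‖l‖ ≤ c := by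
  obtain ⟨i, hi, hmax⟩ := exists_max_coord hv
  have h1 := congrFun h i
  rw [Matrix.mulVec, dotProduct, Pi.smul_apply, smul_eq_mul] at h1
  have h2 : ‖l * v i‖ ≤ c * ‖v i‖ := by
    rw [← h1]
    apply IsUltrametricDist.norm_sum_le_of_forall_le_of_nonneg (by positivity)
    intro j _
    rw [norm_mul]
    gcongr
    · exact hB i j
    · exact hmax j
  rw [norm_mul] at h2
  exact le_of_mul_le_mul_right h2 hi

end vec

/-- `ℤ_p → \bar ℚ_p`. -/
abbrev zK (p : ℕ) [Fact p.Prime] : ℤ_[p] →+* PadicAlgCl p :=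
  (algebraMap ℚ_[p] (PadicAlgCl p)).comp (algebraMap ℤ_[p] ℚ_[p])

lemma norm_zK_le (x : ℤ_[p]) : ‖zK p x‖ ≤ 1 := by
  rw [RingHom.comp_apply]
  have : ‖(algebraMap ℚ_[p] (PadicAlgCl p)) (algebraMap ℤ_[p] ℚ_[p] x)‖ =
      ‖algebraMap ℤ_[p] ℚ_[p] x‖ := PadicAlgCl.norm_extends p _
  rw [this]
  exact PadicInt.norm_le_one x

lemma norm_zK_lt {x : ℤ_[p]} (hx : PadicInt.toZMod x = 0) : ‖zK p x‖ ≤ (p : ℝ)⁻¹ := by
  have h2 : x ∈ RingHom.ker (PadicInt.toZMod (p := p)) := hx
  rw [PadicInt.ker_toZMod, PadicInt.maximalIdeal_eq_span_p, Ideal.mem_span_singleton] at h2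
  obtain ⟨y, rfl⟩ := h2
  rw [map_mul, norm_mul]
  have h1 : ‖zK p (p : ℤ_[p])‖ = (p : ℝ)⁻¹ := by
    have : zK p (p : ℤ_[p]) = algebraMap ℚ_[p] (PadicAlgCl p) (p : ℚ_[p]) := by simp
    rw [this]
    have h3 : ‖(algebraMap ℚ_[p] (PadicAlgCl p)) (p : ℚ_[p])‖ = ‖(p : ℚ_[p])‖ :=
      PadicAlgCl.norm_extends p _
    rw [h3, Padic.norm_p]
  rw [h1]
  calc (p : ℝ)⁻¹ * ‖zK p y‖ ≤ (p : ℝ)⁻¹ * 1 := by
        gcongr
        exact norm_zK_le y
    _ = _ := mul_one _

variable {ι : Type} [Fintype ι] [DecidableEq ι]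

/-- An integral matrix representation over `\bar ℚ_p`. -/
abbrev toK {R : Type*} [CommRing R] (A : R →+* Matrix ι ι ℤ_[p]) : R →+* Matrix ι ι (PadicAlgCl p) :=
  (zK p).mapMatrix.comp A

/-- The good idempotent. -/
lemma exists_good {R R' : Type} [CommRing R] [CommRing R'] (j : R →+* R')
    (A : R' →+* Matrix ι ι ℤ_[p]) (I : Ideal R) :
    ∃ e : Matrix ι ι ℤ_[p], e * e = e ∧ (∀ r, e * A r = A r * e) ∧
      (∃ t ∈ I, (1 - e - A (j t)).map PadicInt.toZMod = 0) ∧
      (∀ u ∈ I, ∃ k, 0 < k ∧ (A (j u) ^ k * e).map PadicInt.toZMod = 0) ∧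
      (∀ v : ι → ℚ_[p], (∀ u ∈ I, ∀ i,
        Tendsto (fun N : ℕ => ((toQ (A (j u))) ^ N).mulVec v i) atTop (𝓝 0)) ↔
        (toQ e).mulVec v = v) := by
  set Φ : R →+* Matrix ι ι ℤ_[p] := A.comp j with hΦ
  set φ : R →+* Matrix ι ι (ZMod p) := (PadicInt.toZMod (p := p)).mapMatrix.comp Φ with hφ
  have hφ1 : ∀ x, φ x = (Φ x).map PadicInt.toZMod := fun x => rfl
  have : Finite (Matrix ι ι (ZMod p)) := inferInstanceAs (Finite (ι → ι → ZMod p))
  obtain ⟨t, ht, htt, hbig⟩ := exists_big φ I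
  have h0 : (Φ t * Φ t).map PadicInt.toZMod = (Φ t).map PadicInt.toZMod := by
    rw [← map_mul, ← hφ1, ← hφ1, map_mul, htt]
  obtain ⟨e, hel, hei, hem⟩ := exists_limit Φ t h0
  have hc : ∀ r, e * A r = A r * e := by
    intro r
    have h1 : Tendsto (fun k => Φ (tt t k) * A r) atTop (𝓝 (e * A r)) :=
      ((continuous_id.matrix_mul continuous_const).tendsto e).comp hel
    have h2 : Tendsto (fun k => A r * Φ (tt t k)) atTop (𝓝 (A r * e)) :=
      ((continuous_const.matrix_mul continuous_id).tendsto e).comp hel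
    have h3 : ∀ k, Φ (tt t k) * A r = A r * Φ (tt t k) := by
      intro k
      rw [hΦ, RingHom.comp_apply, ← map_mul, mul_comm, map_mul]
    simp only [h3] at h1
    exact tendsto_nhds_unique h1 h2
  have hbig' : ∀ u ∈ I, ∃ k, 0 < k ∧ (Φ u ^ k * (1 - Φ t)).map PadicInt.toZMod = 0 := by
    intro u hu
    obtain ⟨k, hk, hk'⟩ := hbig u hu
    refine ⟨k, hk, ?_⟩
    have h1 : φ u ^ k * (1 - φ t) = φ (u ^ k * (1 - t)) := by
      rw [map_mul, map_pow, map_sub, map_one]
    rw [h1] at hk'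
    have h2 := hφ1 (u ^ k * (1 - t))
    rw [hk', map_mul, map_pow, map_sub, map_one] at h2
    exact h2.symm
  refine ⟨1 - e, ?_, ?_, ⟨t, ht, ?_⟩, ?_, ?_⟩
  · rw [sub_mul, mul_sub, mul_sub, hei]
    simp
  · intro r
    rw [sub_mul, mul_sub, hc, one_mul, mul_one]
  · have e1 : (1 - (1 - e) - A (j t) : Matrix ι ι ℤ_[p]) = e - Φ t := by
      rw [sub_sub_cancel]; rfl
    rw [e1]
    ext a b
    have h2 := congrFun (congrFun hem a) b
    simp only [Matrix.map_apply] at h2
    simp [h2]
  · intro u hu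
    obtain ⟨k, hk, hk'⟩ := hbig' u hu
    refine ⟨k, hk, ?_⟩
    have h1 : (A (j u) ^ k * (1 - e)).map PadicInt.toZMod =
        (Φ u ^ k * (1 - Φ t)).map PadicInt.toZMod := by
      have h2 : ∀ X Y : Matrix ι ι ℤ_[p], (X * Y).map PadicInt.toZMod =
          X.map PadicInt.toZMod * Y.map PadicInt.toZMod := fun X Y =>
        map_mul (RingHom.mapMatrix (PadicInt.toZMod (p := p))) X Y
      have h3 : (1 - e).map PadicInt.toZMod = (1 - Φ t).map PadicInt.toZMod := by
        ext a b
        have h4 := congrFun (congrFun hem a) b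
        simp only [Matrix.map_apply] at h4
        simp [h4]
      rw [h2, h2, h3]
      rfl
    rw [h1, hk']
  · intro v
    exact tendsto_iff Φ ht hei hem (fun u => hc (j u)) hbig' v

/-- Two idempotents with the same image. -/
lemma charpoly_eq_of_image {F : Type*} [Field F] {e e1 T : Matrix ι ι F} (h1 : e * e1 = e1)
    (h2 : e1 * e = e) (hT : T * e = e * T) : (e * T).charpoly = (e1 * T).charpoly := by
  have e2 : e1 * T = e * (e1 * T) := by rw [← mul_assoc, h1]
  rw [e2, Matrix.charpoly_mul_comm e (e1 * T), mul_assoc, hT, ← mul_assoc, h2]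

lemma rank_eq_of_image {F : Type*} [Field F] {e e1 : Matrix ι ι F} (h1 : e * e1 = e1)
    (h2 : e1 * e = e) : e.rank = e1.rank := by
  apply le_antisymm
  · calc e.rank = (e1 * e).rank := by rw [h2]
      _ ≤ e1.rank := Matrix.rank_mul_le_left _ _
  · calc e1.rank = (e * e1).rank := by rw [h1]
      _ ≤ e.rank := Matrix.rank_mul_le_left _ _

open Classical in
/-- The rank of an idempotent from its eigenvalues. -/
lemma rank_idem {e : Matrix ι ι ℚ_[p]} (he : e * e = e) :
    e.rank + (specM e).count 0 = Fintype.card ι := by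
  classical
  have h1 : (specM e).count 0 = e.charpoly.rootMultiplicity 0 := by
    rw [specM, Polynomial.count_roots]
    have := eq_rootMultiplicity_map (p := e.charpoly)
      (algebraMap ℚ_[p] (PadicAlgCl p)).injective 0
    rw [this, map_zero]
  have h3 : ∀ m : ℕ, 0 < m → e ^ m = e := by
    intro m hm
    induction m with
    | zero => omega
    | succ m ih =>
      rcases Nat.eq_zero_or_pos m with rfl | hm'
      · simp
      · rw [pow_succ, ih hm', he]
  have hsub : Module.End.maxGenEigenspace (Matrix.toLin' e) 0 =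
      LinearMap.ker (Matrix.toLin' e) := by
    ext v
    rw [Module.End.mem_maxGenEigenspace, LinearMap.mem_ker]
    constructor
    · rintro ⟨k, hk⟩
      rw [zero_smul, sub_zero] at hk
      rcases Nat.eq_zero_or_pos k with rfl | hk0
      · rw [pow_zero] at hk
        have : v = 0 := by simpa using hk
        rw [this, map_zero]
      · rw [← Matrix.toLin'_pow, h3 k hk0] at hk
        exact hk
    · intro h
      exact ⟨1, by rw [zero_smul, sub_zero, pow_one]; exact h⟩
  have h2 : e.charpoly.rootMultiplicity 0 = finrank ℚ_[p] (LinearMap.ker (Matrix.toLin' e)) := by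
    rw [← Matrix.charpoly_toLin', ← LinearMap.finrank_maxGenEigenspace_eq, hsub]
  rw [h1, h2]
  have h3 := LinearMap.finrank_range_add_finrank_ker (Matrix.toLin' e)
  rw [Module.finrank_fintype_fun_eq_card] at h3
  exact h3

/-- The eigenvalues of a matrix over `ℤ_p` in a representation. -/
lemma specM_toQ {R : Type*} [CommRing R] (A : R →+* Matrix ι ι ℤ_[p]) (r : R) :
    specM (toQ (A r)) = (Sys (matRep (toK A))).map fun χ => χ r := by
  rw [← roots_charpoly, specM]
  congr 1
  have h1 : matRep (toK A) r = Matrix.toLin' (toK A r) := by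
    ext v i
    rfl
  rw [h1, Matrix.charpoly_toLin', ← Matrix.charpoly_map]
  congr 1

open Classical in
/-- **The part at an ideal.** -/
theorem spec_part {R R' : Type} [CommRing R] [CommRing R'] (j : R →+* R')
    (A : R' →+* Matrix ι ι ℤ_[p]) (I : Ideal R) (e : Matrix ι ι ℤ_[p]) (he : e * e = e)
    (τ : R') (hcomm : e * A τ = A τ * e)
    (him : ∀ v : ι → ℚ_[p], (∀ u ∈ I, ∀ i,
        Tendsto (fun N : ℕ => ((toQ (A (j u))) ^ N).mulVec v i) atTop (𝓝 0)) ↔
        (toQ e).mulVec v = v) :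
    (toQ e).rank = ((Sys (matRep (toK A))).filter fun χ => ∀ u ∈ I, ‖χ (j u)‖ < 1).card ∧
    specM (toQ (e * A τ)) =
      ((Sys (matRep (toK A))).filter fun χ => ∀ u ∈ I, ‖χ (j u)‖ < 1).map (fun χ => χ τ) +
        Multiset.replicate (Fintype.card ι - (toQ e).rank) 0 := by
  obtain ⟨e1, he1, hc1, ⟨t, ht, ht1⟩, hbig, him1⟩ := exists_good j A I
  -- the two idempotents have the same image
  have hQmul : ∀ X Y : Matrix ι ι ℤ_[p], toQ (X * Y) = toQ X * toQ Y := fun X Y =>
    map_mul (RingHom.mapMatrix (algebraMap ℤ_[p] ℚ_[p])) X Y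
  have hee : toQ e * toQ e = toQ e := by rw [← hQmul, he]
  have hee1 : toQ e1 * toQ e1 = toQ e1 := by rw [← hQmul, he1]
  have himg : ∀ (X Y : Matrix ι ι ℚ_[p]), (∀ v, Y.mulVec v = v → X.mulVec v = v) →
      Y * Y = Y → X * Y = Y := by
    intro X Y h hY
    apply Matrix.toLin'.injective
    apply LinearMap.ext
    intro v
    rw [Matrix.toLin'_apply, Matrix.toLin'_apply, ← Matrix.mulVec_mulVec]
    apply h
    rw [Matrix.mulVec_mulVec, hY]
  have h12 : toQ e * toQ e1 = toQ e1 := himg _ _ (fun v hv => (him v).mp ((him1 v).mpr hv)) hee1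
  have h21 : toQ e1 * toQ e = toQ e := himg _ _ (fun v hv => (him1 v).mp ((him v).mpr hv)) hee
  have hrank : (toQ e).rank = (toQ e1).rank := rank_eq_of_image h12 h21
  have hspec : specM (toQ (e * A τ)) = specM (toQ (e1 * A τ)) := by
    rw [specM, specM, hQmul, hQmul, charpoly_eq_of_image h12 h21]
    rw [← hQmul, ← hQmul, hcomm]
  -- adjoin the idempotent
  set A2 : R'[X] →+* Matrix ι ι ℤ_[p] :=
    Polynomial.eval₂RingHom' A e1 (fun a => (hc1 a).symm) with hA2
  have hA2C : ∀ r, A2 (C r) = A r := by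
    intro r
    rw [hA2, Polynomial.eval₂RingHom'_apply, eval₂_C]
  have hA2X : A2 X = e1 := by
    rw [hA2, Polynomial.eval₂RingHom'_apply, eval₂_X]
  have hcomp : (matRep (toK A2)).comp (C : R' →+* R'[X]) = matRep (toK A) := by
    apply RingHom.ext
    intro r
    rw [RingHom.comp_apply]
    apply LinearMap.ext
    intro v
    rw [matRep_apply, matRep_apply]
    congr 1
    rw [RingHom.comp_apply, RingHom.comp_apply, hA2C]
  -- properties of the systems
  have hvec : ∀ χ ∈ Sys (matRep (toK A2)), ∃ v : ι → PadicAlgCl p, v ≠ 0 ∧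
      ∀ r, (toK A2 r).mulVec v = χ r • v := fun χ hχ => (mem_Sys_iff_exists _).mp hχ
  have hsmall : ∀ χ ∈ Sys (matRep (toK A2)), ∀ r, (A2 r).map PadicInt.toZMod = 0 →
      ‖χ r‖ < 1 := by
    intro χ hχ r hr
    obtain ⟨v, hv, h⟩ := hvec χ hχ
    have h1 : ‖χ r‖ ≤ (p : ℝ)⁻¹ := by
      apply norm_eig_le (by positivity) _ hv (h r)
      intro a b
      apply norm_zK_lt
      exact congrFun (congrFun hr a) b
    exact lt_of_le_of_lt h1
      (inv_lt_one_of_one_lt₀ (by exact_mod_cast (Fact.out : p.Prime).one_lt))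
  have hzero : ∀ χ ∈ Sys (matRep (toK A2)), ∀ r, A2 r = 0 → χ r = 0 := by
    intro χ hχ r hr
    obtain ⟨v, hv, h⟩ := hvec χ hχ
    have h1 := h r
    have h2 : toK A2 r = 0 := by
      rw [RingHom.comp_apply, hr, map_zero]
    rw [h2, Matrix.zero_mulVec] at h1
    exact (smul_eq_zero.mp h1.symm).resolve_right hv
  have hX : ∀ χ ∈ Sys (matRep (toK A2)), χ X = 0 ∨ χ X = 1 := by
    intro χ hχ
    have h1 : χ (X * X - X) = 0 := by
      apply hzero χ hχ
      rw [map_sub, map_mul, hA2X, he1, sub_self]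
    rw [map_sub, map_mul] at h1
    have h2 : χ X * (χ X - 1) = 0 := by linear_combination h1
    rcases mul_eq_zero.mp h2 with h3 | h3
    · exact Or.inl h3
    · exact Or.inr (by linear_combination h3)
  have hiff : ∀ χ ∈ Sys (matRep (toK A2)),
      ((∀ u ∈ I, ‖(χ.comp (C : R' →+* R'[X])) (j u)‖ < 1) ↔ χ X = 1) := by
    intro χ hχ
    constructor
    · intro h
      rcases hX χ hχ with h0 | h0
      · exfalso
        have h1 : ‖χ (1 - X - C (j t))‖ < 1 := by
          apply hsmall χ hχ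
          rw [map_sub, map_sub, map_one, hA2X, hA2C]
          exact ht1
        rw [map_sub, map_sub, map_one, h0, sub_zero] at h1
        have h2 := h t ht
        rw [RingHom.comp_apply] at h2
        have h3 : ‖(1 : PadicAlgCl p)‖ < 1 := by
          have e3 : (1 : PadicAlgCl p) = (1 - χ (C (j t))) + χ (C (j t)) := by ring
          rw [e3]
          exact norm_add_lt h1 h2
        rw [norm_one] at h3
        exact lt_irrefl _ h3
      · exact h0
    · intro h0 u hu
      obtain ⟨k, hk, hk'⟩ := hbig u hu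
      rw [RingHom.comp_apply]
      have h1 : ‖χ (C (j u) ^ k * X)‖ < 1 := by
        apply hsmall χ hχ
        rw [map_mul, map_pow, hA2X, hA2C]
        exact hk'
      rw [map_mul, map_pow, h0, mul_one, norm_pow] at h1
      by_contra hcon
      push Not at hcon
      exact absurd h1 (not_lt.mpr (one_le_pow₀ hcon))
  have hfilter : ((Sys (matRep (toK A))).filter fun χ => ∀ u ∈ I, ‖χ (j u)‖ < 1) =
      ((Sys (matRep (toK A2))).filter fun χ => χ X = 1).map fun χ => χ.comp C := by
    rw [← hcomp, Sys_comp, Multiset.filter_map]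
    congr 1
    apply Multiset.filter_congr
    intro χ hχ
    exact hiff χ hχ
  have hcard : (Sys (matRep (toK A2))).card = Fintype.card ι := by
    rw [card_Sys, Module.finrank_fintype_fun_eq_card]
  have hsplit := Multiset.filter_add_not (fun χ : R'[X] →+* PadicAlgCl p => χ X = 1)
    (Sys (matRep (toK A2)))
  have hcard2 : ((Sys (matRep (toK A2))).filter fun χ => χ X = 1).card +
      ((Sys (matRep (toK A2))).filter fun χ => ¬ χ X = 1).card = Fintype.card ι := by
    rw [← Multiset.card_add, hsplit, hcard]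
  have hrk : (toQ e1).rank = ((Sys (matRep (toK A2))).filter fun χ => χ X = 1).card := by
    have h1 := rank_idem hee1
    have h2 := specM_toQ A2 X
    rw [hA2X] at h2
    rw [h2, ← hsplit, Multiset.map_add, Multiset.count_add] at h1
    have h3 : ((Sys (matRep (toK A2))).filter fun χ => χ X = 1).map (fun χ => χ X) =
        Multiset.replicate ((Sys (matRep (toK A2))).filter fun χ => χ X = 1).card 1 := by
      rw [Multiset.eq_replicate]
      refine ⟨Multiset.card_map _ _, ?_⟩
      intro b hb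
      obtain ⟨χ, hχ, rfl⟩ := Multiset.mem_map.mp hb
      exact (Multiset.mem_filter.mp hχ).2
    have h4 : ((Sys (matRep (toK A2))).filter fun χ => ¬ χ X = 1).map (fun χ => χ X) =
        Multiset.replicate ((Sys (matRep (toK A2))).filter fun χ => ¬ χ X = 1).card 0 := by
      rw [Multiset.eq_replicate]
      refine ⟨Multiset.card_map _ _, ?_⟩
      intro b hb
      obtain ⟨χ, hχ, rfl⟩ := Multiset.mem_map.mp hb
      have h5 := Multiset.mem_filter.mp hχ
      exact (hX χ h5.1).resolve_right h5.2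
    rw [h3, h4, Multiset.count_replicate_self, Multiset.count_replicate] at h1
    simp only [one_ne_zero, if_false] at h1
    omega
  refine ⟨?_, ?_⟩
  · rw [hfilter, Multiset.card_map, hrank, hrk]
  · rw [hspec, hfilter, Multiset.map_map, hrank, hrk]
    have h1 := specM_toQ A2 (X * C τ)
    rw [map_mul, hA2X, hA2C] at h1
    rw [h1]
    nth_rewrite 1 [← hsplit]
    rw [Multiset.map_add]
    congr 1
    · apply Multiset.map_congr rfl
      intro χ hχ
      have h2 := (Multiset.mem_filter.mp hχ).2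
      rw [map_mul, h2, one_mul]
      rfl
    · rw [Multiset.eq_replicate]
      refine ⟨?_, ?_⟩
      · rw [Multiset.card_map]
        omega
      · intro b hb
        obtain ⟨χ, hχ, rfl⟩ := Multiset.mem_map.mp hb
        have h5 := Multiset.mem_filter.mp hχ
        rw [map_mul, (hX χ h5.1).resolve_right h5.2, zero_mul]

end Gouvea.Sys
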