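import Pool.Agent.Work.MP_d3517d_nt.Sys.Padic
import Pool.Agent.Work.MP_d3517d_nt.PS.SwapSpec

/-!
# The doubled datum
-/

open Polynomial Module Filter Topology Gouvea.PS

noncomputable section

namespace Gouvea.Sys

section General

variable {R : Type} [CommRing R]

lemma charpoly_bdg {V κ : Type} [Fintype V] [DecidableEq V] [Fintype κ] [DecidableEq κ]
    (T : Matrix (V × κ) (V × κ) R) :
    (bdg fun _ => T).charpoly = T.charpoly * T.charpoly := by
  let e : (V × κ) ⊕ (V × κ) ≃ (V × Bool) × κ :=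
    { toFun := Sum.elim (fun x => ((x.1, true), x.2)) (fun x => ((x.1, false), x.2))
      invFun := fun x => if x.1.2 then Sum.inl (x.1.1, x.2) else Sum.inr (x.1.1, x.2)
      left_inv := by rintro (x | x) <;> simp
      right_inv := by rintro ⟨⟨v, b⟩, i⟩; cases b <;> simp }
  have h : (bdg fun _ => T) = Matrix.reindex e e (Matrix.fromBlocks T 0 0 T) := by
    refine Matrix.ext fun x y => ?_
    obtain ⟨⟨v, b⟩, i⟩ := x
    obtain ⟨⟨v', b'⟩, i'⟩ := y
    rw [bdg_apply]
    cases b <;> cases b' <;> simp [e]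
  rw [h, Matrix.charpoly_reindex, Matrix.charpoly_fromBlocks_zero₂₁]

end General

variable {p : ℕ} [Fact p.Prime] {V κ : Type} [Fintype V] [DecidableEq V] [Fintype κ]
  [DecidableEq κ]

lemma specM_bdg (T : Matrix (V × κ) (V × κ) ℚ_[p]) :
    specM (bdg fun _ => T) = specM T + specM T := by
  rw [specM, charpoly_bdg, Polynomial.map_mul, Polynomial.roots_mul]
  · rfl
  · exact mul_ne_zero (((Matrix.charpoly_monic _).map _).ne_zero)
      (((Matrix.charpoly_monic _).map _).ne_zero)

/-- Action of a block diagonal matrix on a vector. -/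
lemma bdg_mulVec (T : Matrix (V × κ) (V × κ) ℚ_[p]) (w : (V × Bool) × κ → ℚ_[p]) (x) :
    (bdg fun _ => T).mulVec w x = T.mulVec (fun y => w ((y.1, x.1.2), y.2)) (x.1.1, x.2) := by
  rw [Matrix.mulVec, Matrix.mulVec, dotProduct, dotProduct, Fintype.sum_prod_type,
    Fintype.sum_prod_type, Fintype.sum_prod_type]
  refine Finset.sum_congr rfl fun v _ => ?_
  rw [Fintype.sum_bool]
  simp only [bdg_apply]
  obtain ⟨⟨a, b⟩, i⟩ := x
  cases b <;> simp

lemma bdg_pow_mulVec (T : Matrix (V × κ) (V × κ) ℚ_[p]) (N : ℕ)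
    (w : (V × Bool) × κ → ℚ_[p]) (x) :
    ((bdg fun _ => T) ^ N).mulVec w x =
      (T ^ N).mulVec (fun y => w ((y.1, x.1.2), y.2)) (x.1.1, x.2) := by
  have h : (bdg fun _ => T) ^ N = bdg fun _ => T ^ N := by
    induction N with
    | zero =>
      rw [pow_zero]
      simp only [pow_zero]
      exact bdg_one.symm
    | succ N ih => rw [pow_succ, ih, bdg_mul_bdg]; simp only [pow_succ]
  rw [h, bdg_mulVec]

open Classical in
/-- **The counting functions of the doubled datum.** -/
theorem double_counts {R R' : Type} [CommRing R] [CommRing R'] (j : R →+* R')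
    (A : R' →+* Matrix (V × κ) (V × κ) ℤ_[p]) (τ : R') (I : Ideal R)
    (e2 : Matrix ((V × Bool) × κ) ((V × Bool) × κ) ℤ_[p]) (he2 : e2 * e2 = e2)
    (hcomm : e2 * (bag fun _ => A τ) = (bag fun _ => A τ) * e2)
    (him : ∀ w : (V × Bool) × κ → ℚ_[p], (∀ u ∈ I, ∀ i,
        Tendsto (fun N : ℕ => ((toQ (bdg fun _ => A (j u))) ^ N).mulVec w i) atTop (𝓝 0)) ↔
        (toQ e2).mulVec w = w) :
    (toQ e2).rank = 2 * ((Sys (matRep (toK A))).filter fun χ => ∀ u ∈ I, ‖χ (j u)‖ < 1).card ∧
    ∀ x : ℝ, Nf (toQ (e2 * bag fun _ => A τ)) x =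
      2 * ((Sys (matRep (toK A))).filter fun χ => (∀ u ∈ I, ‖χ (j u)‖ < 1) ∧
        (p : ℝ) ^ (-x) ≤ ‖χ τ‖).card := by
  obtain ⟨e1, he1, hc1, -, -, him1⟩ := exists_good j A I
  obtain ⟨hr, hs⟩ := spec_part j A I e1 he1 τ (hc1 τ) him1
  set e' : Matrix ((V × Bool) × κ) ((V × Bool) × κ) ℤ_[p] := bdg fun _ => e1 with he'
  have hQmul : ∀ X Y : Matrix ((V × Bool) × κ) ((V × Bool) × κ) ℤ_[p],
      toQ (X * Y) = toQ X * toQ Y := fun X Y =>
    map_mul (RingHom.mapMatrix (algebraMap ℤ_[p] ℚ_[p])) X Y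
  have he'i : e' * e' = e' := by rw [he', bdg_mul_bdg, he1]
  have hee : toQ e2 * toQ e2 = toQ e2 := by rw [← hQmul, he2]
  have hee' : toQ e' * toQ e' = toQ e' := by rw [← hQmul, he'i]
  have himg : ∀ (X Y : Matrix ((V × Bool) × κ) ((V × Bool) × κ) ℚ_[p]),
      (∀ v, Y.mulVec v = v → X.mulVec v = v) → Y * Y = Y → X * Y = Y := by
    intro X Y h hY
    apply Matrix.toLin'.injective
    apply LinearMap.ext
    intro v
    rw [Matrix.toLin'_apply, Matrix.toLin'_apply, ← Matrix.mulVec_mulVec]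
    apply h
    rw [Matrix.mulVec_mulVec, hY]
  have him' : ∀ w : (V × Bool) × κ → ℚ_[p], (∀ u ∈ I, ∀ i,
      Tendsto (fun N : ℕ => ((toQ (bdg fun _ => A (j u))) ^ N).mulVec w i) atTop (𝓝 0)) ↔
      (toQ e').mulVec w = w := by
    intro w
    have h1 : ∀ u : R, ∀ N : ℕ, ∀ i, ((toQ (bdg fun _ => A (j u))) ^ N).mulVec w i =
        ((toQ (A (j u))) ^ N).mulVec (fun y => w ((y.1, i.1.2), y.2)) (i.1.1, i.2) := by
      intro u N i
      rw [toQ_bdg, bdg_pow_mulVec]
    have h2 : (toQ e').mulVec w = w ↔ ∀ b : Bool,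
        (toQ e1).mulVec (fun y => w ((y.1, b), y.2)) = fun y => w ((y.1, b), y.2) := by
      rw [he', toQ_bdg]
      constructor
      · intro h b
        funext y
        have h3 := congrFun h ((y.1, b), y.2)
        rw [bdg_mulVec] at h3
        exact h3
      · intro h
        funext i
        rw [bdg_mulVec, h]
    rw [h2]
    constructor
    · intro h b
      rw [← him1]
      intro u hu i
      have h3 := h u hu ((i.1, b), i.2)
      simp only [h1] at h3
      exact h3
    · intro h u hu i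
      simp only [h1]
      exact (him1 _).mpr (h i.1.2) u hu _
  have h12 : toQ e2 * toQ e' = toQ e' :=
    himg _ _ (fun v hv => (him v).mp ((him' v).mpr hv)) hee'
  have h21 : toQ e' * toQ e2 = toQ e2 :=
    himg _ _ (fun v hv => (him' v).mp ((him v).mpr hv)) hee
  have hrank : (toQ e2).rank = (toQ e').rank := rank_eq_of_image h12 h21
  have hspec : specM (toQ (e2 * bag fun _ => A τ)) = specM (toQ (e' * bag fun _ => A τ)) := by
    rw [specM, specM, hQmul, hQmul, charpoly_eq_of_image h12 h21]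
    rw [← hQmul, ← hQmul, hcomm]
  have hQ1 : toQ e1 * toQ e1 = toQ e1 := by
    have : toQ (e1 * e1) = toQ e1 * toQ e1 :=
      map_mul (RingHom.mapMatrix (algebraMap ℤ_[p] ℚ_[p])) e1 e1
    rw [← this, he1]
  constructor
  · rw [← hr, hrank]
    have h3 := rank_idem hee'
    have h4 := rank_idem hQ1
    rw [he', toQ_bdg, specM_bdg, Multiset.count_add, Fintype.card_prod, Fintype.card_prod,
      Fintype.card_bool, ← toQ_bdg (fun _ => e1), ← he'] at h3
    rw [Fintype.card_prod] at h4
    have h5 : Fintype.card V * 2 * Fintype.card κ =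
        2 * (Fintype.card V * Fintype.card κ) := by ring
    omega
  · intro x
    have h6 : e' * (bag fun _ => A τ) = bag fun _ => e1 * A τ := by
      rw [he', bdg_mul_bag]
    have h7 : Nf (toQ (e2 * bag fun _ => A τ)) x = Nf (toQ (e' * bag fun _ => A τ)) x := by
      rw [Nf, Nf, hspec]
    rw [h7, h6, toQ_bag, Nf_bag, Nf, hs, Multiset.filter_add, Multiset.card_add,
      Multiset.filter_map, Multiset.card_map]
    have h8 : (Multiset.filter (fun l : PadicAlgCl p => (p : ℝ) ^ (-x) ≤ ‖l‖)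
        (Multiset.replicate (Fintype.card (V × κ) - (toQ e1).rank) 0)) = 0 := by
      rw [Multiset.filter_eq_nil]
      intro a ha
      rw [Multiset.eq_of_mem_replicate ha, norm_zero, not_le]
      have hp0 : (0 : ℝ) < p := by exact_mod_cast (Fact.out : p.Prime).pos
      positivity
    rw [h8, Multiset.card_zero, add_zero]
    congr 1
    rw [Multiset.filter_filter]
    congr 1
    apply Multiset.filter_congr
    intro χ _
    simp only [Function.comp_apply]
    exact and_comm

end Gouvea.Sys
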